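import Pool.Agent.H50.WA.Sum
import Pool.Graph.R_seed8.Y133.Half.Seq
import Pool.Graph.R_seed8.Y133.Half.Growth

/-!
# Asymptotics
-/

set_option linter.unusedSectionVars false

open CategoryTheory AlgebraicGeometry Filter Topology

open scoped ENNReal

universe u v

namespace Pool.Agent.H50.WA

open Module
open Pool.Agent.H914 Pool.Agent.W534 VarClass Obj WeilCohomology Pool.Agent.H281R3.HT
  Pool.Agent.W536.RR
open Pool.Agent.H50.WR
open Pool.Agent.Y133.Half (algSys tateSys TC Sys PH exp_lt prodCongr prodComm pwAdd xp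
  xp_eq_zero_left finrank_pw cycRank)

variable {k : Type u} [Field k] {𝒱 : VarClass k} {ops : CycleOps 𝒱}
  {W : WeilCohomology.{u, v} ops} {X Y Z : 𝒱.Obj} {p : ℕ} {Φ : FrobSystem W p} {n : ℕ}

/-- The two definitions of the powers. -/
noncomputable def pwIso163 (X : 𝒱.Obj) : ∀ n, Pool.Agent.Y163.pw X n ≅ Pool.Agent.Y133.Half.pw X n
  | 0 => Iso.refl _
  | n + 1 => prodCongr (Iso.refl X) (pwIso163 X n) ≪≫ prodComm X _

/-- The errors. -/
def er (b d n : ℕ) : ℕ := ((n + 1) * d + 1) * ((n + 1) * eb b n)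

lemma er_le {b d l m₀ n : ℕ} (hm₀ : m₀ ≤ 1) (hb : 1 ≤ b) (hn : n = m₀ + (l + l + 1) + 1) :
    er b d n ≤ (4 * (2 * d + 1) * (b * (b - 1)) ^ 2) * (b * (b - 1)) ^ l * (l + 2) ^ 3 := by
  have h1 : n + 1 ≤ 2 * (l + 2) := by omega
  have h2 : n + 1 - (n + 1) / 2 = l + 2 := by omega
  have h3 : (n + 1) / 2 ≤ l + 2 := by omega
  have h4 : eb b n ≤ 2 * (l + 2) * (b * (b - 1)) ^ (l + 2) := by
    rw [eb, h2, mul_pow]
    exact Nat.mul_le_mul h1 (Nat.mul_le_mul_right _ (Nat.pow_le_pow_right hb h3))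
  have h5 : (n + 1) * d + 1 ≤ (2 * d + 1) * (l + 2) := by
    have : (n + 1) * d ≤ 2 * (l + 2) * d := Nat.mul_le_mul_right _ h1
    nlinarith
  calc er b d n ≤ ((2 * d + 1) * (l + 2)) * ((2 * (l + 2)) *
        (2 * (l + 2) * (b * (b - 1)) ^ (l + 2))) :=
        Nat.mul_le_mul h5 (Nat.mul_le_mul h1 h4)
    _ = _ := by ring

/-- The errors are negligible. -/
theorem er_small {b d : ℕ} (hb : 2 ≤ b) {z : ℕ → ℕ}
    (hz : ∀ l m₀ n, m₀ ≤ 1 → n = m₀ + (l + l + 1) + 1 →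
      b ^ (2 * (l + 1)) ≤ z n * (l + 2) ^ (b ^ 2)) {ε : ℝ} (hε : 0 < ε) :
    ∃ n₀ : ℕ, ∀ n ≥ n₀, (er b d n : ℝ) ≤ ε * z n := by
  set c : ℝ := (b : ℝ) * ((b - 1 : ℕ) : ℝ) with hc
  have hb1 : ((b - 1 : ℕ) : ℝ) = (b : ℝ) - 1 := by
    rw [Nat.cast_sub (by omega)]; simp
  have hbr : (2 : ℝ) ≤ b := by exact_mod_cast hb
  have hc0 : 0 ≤ c := by positivity
  have hcB : c < (b : ℝ) ^ 2 := by
    rw [hc, hb1]
    nlinarith
  obtain ⟨l₀, hl₀⟩ := exp_lt hc0 hcB (b ^ 2 + 3)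
    (C := ((4 * (2 * d + 1) * (b * (b - 1)) ^ 2 : ℕ) : ℝ)) hε
  refine ⟨2 * l₀ + 4, fun n hn => ?_⟩
  obtain ⟨m₀, l, hm₀, hl'⟩ : ∃ m₀ l, m₀ ≤ 1 ∧ n = m₀ + (l + l + 1) + 1 :=
    ⟨n % 2, (n - n % 2 - 2) / 2, by omega, by omega⟩
  have h1 : (er b d n : ℝ) ≤ ((4 * (2 * d + 1) * (b * (b - 1)) ^ 2 : ℕ) : ℝ) * c ^ l *
      ((l : ℝ) + 2) ^ 3 := by
    have h2 := er_le (b := b) (d := d) hm₀ (by omega) hl'
    have h3 : (er b d n : ℝ) ≤ (((4 * (2 * d + 1) * (b * (b - 1)) ^ 2) * (b * (b - 1)) ^ l *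
      (l + 2) ^ 3 : ℕ) : ℝ) := by exact_mod_cast h2
    refine h3.trans (le_of_eq ?_)
    rw [hc]
    push_cast
    ring
  have h4 := hl₀ l (by omega)
  have h5 : (b : ℝ) ^ (2 * (l + 1)) ≤ z n * ((l : ℝ) + 2) ^ (b ^ 2) := by
    exact_mod_cast hz l m₀ n hm₀ hl'
  have h6 : (0 : ℝ) < ((l : ℝ) + 2) ^ (b ^ 2) := by positivity
  have h7 : (er b d n : ℝ) * ((l : ℝ) + 2) ^ (b ^ 2) ≤ (ε * z n) * ((l : ℝ) + 2) ^ (b ^ 2) := by
    calc (er b d n : ℝ) * ((l : ℝ) + 2) ^ (b ^ 2)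
        ≤ (((4 * (2 * d + 1) * (b * (b - 1)) ^ 2 : ℕ) : ℝ) * c ^ l *
      ((l : ℝ) + 2) ^ 3) * ((l : ℝ) + 2) ^ (b ^ 2) := mul_le_mul_of_nonneg_right h1 h6.le
      _ = ((4 * (2 * d + 1) * (b * (b - 1)) ^ 2 : ℕ) : ℝ) * c ^ l * ((l : ℝ) + 2) ^ (b ^ 2 + 3) := by
          ring
      _ ≤ ε * ((b : ℝ) ^ 2) ^ l := h4
      _ ≤ ε * (b : ℝ) ^ (2 * (l + 1)) := by
          rw [← pow_mul]
          exact mul_le_mul_of_nonneg_left (pow_le_pow_right₀ (by linarith) (by omega)) hε.le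
      _ ≤ ε * (z n * ((l : ℝ) + 2) ^ (b ^ 2)) := mul_le_mul_of_nonneg_left h5 hε.le
      _ = _ := by ring
  exact le_of_mul_le_mul_right h7 h6

/-- The growth of the spaces of the classes of a system. -/
theorem sys_growth (T : Sys W) (X : 𝒱.Obj) (hX : 0 < finrank W.K (W.H X)) (l m₀ n : ℕ)
    (hl' : n = m₀ + (l + l + 1) + 1) :
    finrank W.K (W.H X) ^ (2 * (l + 1)) ≤ finrank W.K (T.C (Pool.Agent.Y133.Half.pw X n)) *
      (l + 2) ^ (finrank W.K (W.H X) ^ 2) := by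
  set Y := Pool.Agent.Y133.Half.pw X l with hY
  set P₀ := Pool.Agent.Y133.Half.pw X m₀ with hP₀
  let φ : P₀.prod (Y.prod Y) ≅ Pool.Agent.Y133.Half.pw X n :=
    prodCongr (Iso.refl _) (pwAdd X l l) ≪≫ pwAdd X m₀ (l + l + 1) ≪≫
      eqToIso (congrArg (Pool.Agent.Y133.Half.pw X) hl'.symm)
  have hlow : finrank W.K (T.C (Y.prod Y)) ≤ finrank W.K (T.C (Pool.Agent.Y133.Half.pw X n)) := by
    rw [← T.finrank_C_iso φ]
    apply T.finrank_C_le (snd P₀ (Y.prod Y))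
    intro x y hxy
    have h2 : ∀ m, (1 : W.H (Pool.Agent.Y133.Half.pw X m)) ≠ 0 := by
      intro m
      have : Nontrivial (W.H (Pool.Agent.Y133.Half.pw X m)) := by
        apply Module.nontrivial_of_finrank_pos (R := W.K)
        rw [finrank_pw]
        exact Nat.pow_pos hX
      exact one_ne_zero
    have h3 : xp W (1 : W.H P₀) (x - y) = 0 := by
      rw [xp, map_one, one_mul, map_sub, hxy, sub_self]
    exact sub_eq_zero.1 (xp_eq_zero_left (h2 m₀) h3)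
  exact (T.growth X l).trans (Nat.mul_le_mul_right _ hlow)

/-- Comparison of quotients. -/
theorem tendsto_quot {z r E zz rr m : ℕ → ℕ} {L : ℝ} (hz : ∀ i, 0 < z i)
    (hE : Tendsto (fun i => (E i : ℝ) / z i) atTop (𝓝 0))
    (hr : Tendsto (fun i => (r i : ℝ) / z i) atTop (𝓝 L))
    (h1 : ∀ i, m i * zz i ≤ z i + E i) (h2 : ∀ i, z i ≤ m i * zz i + E i)
    (h3 : ∀ i, m i * rr i ≤ r i + 2 * E i) (h4 : ∀ i, r i ≤ m i * rr i + 2 * E i)
    (hm : ∀ i, 0 < m i) :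
    Tendsto (fun i => (rr i : ℝ) / zz i) atTop (𝓝 L) ∧ ∀ᶠ i in atTop, 0 < zz i := by
  have hz' : ∀ i, (0 : ℝ) < z i := fun i => by exact_mod_cast hz i
  have hm' : ∀ i, (0 : ℝ) < m i := fun i => by exact_mod_cast hm i
  have k1 : Tendsto (fun i => (m i * zz i : ℝ) / z i) atTop (𝓝 1) := by
    have e1 : Tendsto (fun i => 1 - (E i : ℝ) / z i) atTop (𝓝 1) := by
      simpa using tendsto_const_nhds.sub hE
    have e2 : Tendsto (fun i => 1 + (E i : ℝ) / z i) atTop (𝓝 1) := by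
      simpa using tendsto_const_nhds.add hE
    refine tendsto_of_tendsto_of_tendsto_of_le_of_le e1 e2 (fun i => ?_) (fun i => ?_)
    · have h : (z i : ℝ) ≤ m i * zz i + E i := by exact_mod_cast h2 i
      change 1 - (E i : ℝ) / z i ≤ (m i * zz i : ℝ) / z i
      rw [sub_le_iff_le_add, ← add_div, le_div_iff₀ (hz' i), one_mul]
      exact h
    · have h : (m i * zz i : ℝ) ≤ z i + E i := by exact_mod_cast h1 i
      change (m i * zz i : ℝ) / z i ≤ 1 + (E i : ℝ) / z i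
      rw [div_le_iff₀ (hz' i), add_mul, one_mul, div_mul_cancel₀ _ (hz' i).ne']
      exact h
  have k2 : Tendsto (fun i => (m i * rr i : ℝ) / z i) atTop (𝓝 L) := by
    have hE2 : Tendsto (fun i => 2 * ((E i : ℝ) / z i)) atTop (𝓝 0) := by
      simpa using hE.const_mul 2
    have e1 : Tendsto (fun i => (r i : ℝ) / z i - 2 * ((E i : ℝ) / z i)) atTop (𝓝 L) := by
      simpa using hr.sub hE2
    have e2 : Tendsto (fun i => (r i : ℝ) / z i + 2 * ((E i : ℝ) / z i)) atTop (𝓝 L) := by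
      simpa using hr.add hE2
    refine tendsto_of_tendsto_of_tendsto_of_le_of_le e1 e2 (fun i => ?_) (fun i => ?_)
    · have h : (r i : ℝ) ≤ m i * rr i + 2 * E i := by exact_mod_cast h4 i
      change (r i : ℝ) / z i - 2 * ((E i : ℝ) / z i) ≤ (m i * rr i : ℝ) / z i
      rw [sub_le_iff_le_add, ← mul_div_assoc, ← add_div]
      exact div_le_div_of_nonneg_right h (hz' i).le
    · have h : (m i * rr i : ℝ) ≤ r i + 2 * E i := by exact_mod_cast h3 i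
      change (m i * rr i : ℝ) / z i ≤ (r i : ℝ) / z i + 2 * ((E i : ℝ) / z i)
      rw [← mul_div_assoc, ← add_div]
      exact div_le_div_of_nonneg_right h (hz' i).le
  have k3 : ∀ᶠ i in atTop, 0 < zz i := by
    have h5 := k1.eventually (lt_mem_nhds (show (0 : ℝ) < 1 by norm_num))
    filter_upwards [h5] with i hi
    by_contra h0
    have h6 : zz i = 0 := by omega
    rw [h6, Nat.cast_zero, mul_zero, zero_div] at hi
    exact lt_irrefl _ hi
  refine ⟨?_, k3⟩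
  have k4 := k2.div k1 one_ne_zero
  rw [div_one] at k4
  refine k4.congr' ?_
  filter_upwards [k3] with i hi
  have hzz : (zz i : ℝ) ≠ 0 := by exact_mod_cast hi.ne'
  have h7 := (hz' i).ne'
  have h8 := (hm' i).ne'
  simp only [Pi.div_apply]
  field_simp

/-- From real limits to limits of the inverse quotients. -/
theorem tendsto_inv_quot {zz rr : ℕ → ℕ} {N : ℕ∞} (hN : 1 ≤ N)
    (h : Tendsto (fun i => (rr i : ℝ) / zz i) atTop (𝓝 ((N : ℝ≥0∞)⁻¹).toReal))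
    (hz : ∀ᶠ i in atTop, 0 < zz i) :
    Tendsto (fun i => (zz i : ℝ≥0∞) / rr i) atTop (𝓝 (N : ℝ≥0∞)) := by
  have hN0 : ((N : ℝ≥0∞)⁻¹) ≠ ⊤ := by
    rw [Ne, ENNReal.inv_eq_top]
    intro h0
    have h1 : N = 0 := by exact_mod_cast h0
    rw [h1] at hN
    exact absurd hN (by simp)
  have h1 := (ENNReal.continuous_ofReal.tendsto _).comp h
  rw [ENNReal.ofReal_toReal hN0] at h1
  have h2 := (ENNReal.tendsto_inv_iff.2 h1)
  rw [inv_inv] at h2
  refine h2.congr' ?_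
  filter_upwards [hz] with i hi
  rw [Function.comp_apply, ENNReal.ofReal_div_of_pos (by exact_mod_cast hi), ENNReal.ofReal_natCast,
    ENNReal.ofReal_natCast, ENNReal.inv_div (Or.inl (ENNReal.natCast_ne_top _))
      (Or.inl (by exact_mod_cast hi.ne'))]

/-- From limits of quotients to real limits. -/
theorem tendsto_real_quot {z r : ℕ → ℕ} {N : ℕ∞} (hN : 1 ≤ N)
    (h : Tendsto (fun i => (z i : ℝ≥0∞) / r i) atTop (𝓝 (N : ℝ≥0∞))) (hz : ∀ i, 0 < z i) :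
    Tendsto (fun i => (r i : ℝ) / z i) atTop (𝓝 ((N : ℝ≥0∞)⁻¹).toReal) := by
  have hN0 : ((N : ℝ≥0∞)⁻¹) ≠ ⊤ := by
    rw [Ne, ENNReal.inv_eq_top]
    intro h0
    have h1 : N = 0 := by exact_mod_cast h0
    rw [h1] at hN
    exact absurd hN (by simp)
  have h1 := ENNReal.tendsto_inv_iff.2 h
  have h2 := (ENNReal.tendsto_toReal hN0).comp h1
  refine h2.congr fun i => ?_
  rw [Function.comp_apply, ENNReal.toReal_inv, ENNReal.toReal_div, ENNReal.toReal_natCast,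
    ENNReal.toReal_natCast, inv_div]

end Pool.Agent.H50.WA
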