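import Pool.Agent.H50.WR.Defs

/-!
# Sums of orders of poles and of ranks over one finite field
-/

open CategoryTheory AlgebraicGeometry

universe u v

namespace Pool.Agent.H50.WA

open Pool.Agent.H914 Pool.Agent.W534 VarClass Obj WeilCohomology Pool.Agent.H50.WR

variable {k : Type u} [Field k] {𝒱 : VarClass k} {ops : CycleOps 𝒱}

/-- The number `m` is the sum of the orders of the poles at the integers `0, …, dim Z` of the zeta
function of the model of `Z` over the field with `Q` elements with the Frobenius endomorphism `f`. -/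
def IsPoleSum (W : WeilCohomology.{u, v} ops) (σ : W.K →+* ℂ) {Z : 𝒱.Obj} (f : Z ⟶ Z)
    (Q m : ℕ) : Prop :=
  ∃ g : ℕ → ℕ, (∀ j ≤ Z.dim, meromorphicOrderAt (zetaOf W σ f Q) (j : ℂ) =
    ((-(g j : ℤ) : ℤ) : WithTop ℤ)) ∧ m = ∑ j ∈ Finset.range (Z.dim + 1), g j

/-- The rank of the group of the cycles of all codimensions on the model of `Z` over the field with
`Q` elements with the Frobenius endomorphism `f`, modulo numerical equivalence. -/
noncomputable def rankSum (ops : CycleOps 𝒱) {Z : 𝒱.Obj} (f : Z ⟶ Z) (Q : ℕ) : ℕ :=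
  ∑ j ∈ Finset.range (Z.dim + 1), rationalRank ops f Q j

end Pool.Agent.H50.WA
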