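import Mathlib

/-!
# A common exponent for the torsion of a finitely generated multiplicative group
-/

set_option linter.unusedSectionVars false

namespace Pool.Agent.H50.WA

/-- The torsion of a finitely generated commutative group has a finite exponent. -/
theorem exists_exponent {M : Type*} [AddCommGroup M] [Module.Finite ℤ M] : ∃ τ : ℕ, 0 < τ ∧
    ∀ x : M, (∃ t : ℕ, 0 < t ∧ t • x = 0) → τ • x = 0 := by
  have hN : IsNoetherian ℤ M := isNoetherian_of_isNoetherianRing_of_finite ℤ M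
  have h1 : Module.Finite ℤ (Submodule.torsion ℤ M) := inferInstance
  have h2 : Finite (Submodule.torsion ℤ M) :=
    Module.finite_of_fg_torsion _ Submodule.torsion_isTorsion
  refine ⟨Nat.card (Submodule.torsion ℤ M), Nat.card_pos, fun x hx => ?_⟩
  obtain ⟨t, ht, hx⟩ := hx
  have h3 : x ∈ Submodule.torsion ℤ M := by
    rw [Submodule.mem_torsion_iff]
    refine ⟨⟨(t : ℤ), mem_nonZeroDivisors_of_ne_zero (by exact_mod_cast ht.ne')⟩, ?_⟩
    change (t : ℤ) • x = 0
    rw [natCast_zsmul, hx]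
  have h4 := card_nsmul_eq_zero' (x := (⟨x, h3⟩ : Submodule.torsion ℤ M))
  exact congrArg Subtype.val h4

/-- The multiplicative version in a field. -/
theorem exists_exponent_field {K ι : Type*} [Field K] [Finite ι] (lam : ι → K)
    (hlam : ∀ l, lam l ≠ 0) {q : K} (hq : q ≠ 0) : ∃ τ : ℕ, 0 < τ ∧
    ∀ (m : ℕ) (I : Fin m → ι) (J : ℕ), (∃ t : ℕ, 0 < t ∧ (∏ i, lam (I i)) ^ t = (q ^ J) ^ t) →
      (∏ i, lam (I i)) ^ τ = (q ^ J) ^ τ := by
  classical
  let u : Option ι → Kˣ := fun o => match o with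
    | none => Units.mk0 q hq
    | some l => Units.mk0 (lam l) (hlam l)
  let G : Subgroup Kˣ := Subgroup.closure (Set.range u)
  have hG : G.FG := by
    have h1 : (Set.range u).Finite := Set.finite_range u
    exact ⟨h1.toFinset, by rw [Set.Finite.coe_toFinset]⟩
  have hFG : Group.FG G := (Group.fg_iff_subgroup_fg G).2 hG
  have hA : AddGroup.FG (Additive G) := GroupFG.iff_add_fg.1 hFG
  have hM : Module.Finite ℤ (Additive G) := Module.Finite.iff_addGroup_fg.2 hA
  obtain ⟨τ, hτ, h⟩ := exists_exponent (M := Additive G)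
  refine ⟨τ, hτ, fun m I J ⟨t, ht, h1⟩ => ?_⟩
  have hmem : ∀ o, u o ∈ G := fun o => Subgroup.subset_closure ⟨o, rfl⟩
  let x : Kˣ := (∏ i, u (some (I i))) * (u none ^ J)⁻¹
  have hx : x ∈ G := G.mul_mem (Subgroup.prod_mem _ fun i _ => hmem (some (I i)))
    (G.inv_mem (G.pow_mem (hmem none) _))
  have hval : (x : K) = (∏ i, lam (I i)) * (q ^ J)⁻¹ := by
    simp only [x, Units.val_mul, Units.val_inv_eq_inv_val, Units.val_pow_eq_pow_val, Units.coe_prod]
    rfl
  have hqJ : q ^ J ≠ 0 := pow_ne_zero _ hq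
  have h2 : ∀ r : ℕ, (x : K) ^ r = 1 ↔ (∏ i, lam (I i)) ^ r = (q ^ J) ^ r := by
    intro r
    rw [hval, mul_pow, inv_pow, mul_inv_eq_one₀ (pow_ne_zero _ hqJ)]
  have h3 := h (Additive.ofMul ⟨x, hx⟩) ⟨t, ht, by
    rw [← ofMul_pow]
    apply congrArg Additive.ofMul
    apply Subtype.ext
    apply Units.ext
    change (x : K) ^ t = 1
    exact (h2 t).2 h1⟩
  rw [← ofMul_pow] at h3
  have h4 : ((⟨x, hx⟩ : G) ^ τ) = 1 := h3
  have h5 : (x : K) ^ τ = 1 := by
    have := congrArg (fun y : G => ((y : Kˣ) : K)) h4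
    simpa using this
  exact (h2 τ).1 h5

end Pool.Agent.H50.WA
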