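import Pool.Agent.H50.WA.Theta
import Pool.Agent.H50.WA.Tau

/-!
# The generalised Tate classes on the Weil restrictions
-/

set_option linter.unusedSectionVars false

open CategoryTheory AlgebraicGeometry Finset Polynomial

universe u v

namespace Pool.Agent.H50.WA

open Pool.Agent.H914 Pool.Agent.W534 VarClass Obj WeilCohomology Pool.Agent.H281R3.HT
open Pool.Agent.H50.WR
open Pool.Agent.Y163 (pw pr tup perm HBasis mon mon_eq tup_pr perm_pr perm_mul pw_hom_ext ofFn_perm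
  prod_perm genU mem_genU exists_monBasis exists_hbasis)
open Pool.Agent.Y133.Half (algSys Sys PH xp corr_xp spanCycles_of_algSpan)
open Pool.Agent.R940 (IsEig frob_pr gen_semi gen_bilin ofFn_gr repr_zero isT_of_repr prod_cnt
  sum_cnt_nat exists_ebasis)
open Pool.Agent.R936 (monv monv_eq monv_zero tens tens_monv tens_mem op_apply)

variable {k : Type u} [Field k] {𝒱 : VarClass k} {ops : CycleOps 𝒱}
  {W : WeilCohomology.{u, v} ops} {X Y Z : 𝒱.Obj} {p : ℕ} {Φ : FrobSystem W p}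
  {ι : Type v} {B : HBasis W X ι} {lam : ι → W.K} {n : ℕ}

lemma lam_ne (hB : IsEig Φ B lam) (l : ι) : lam l ≠ 0 := by
  intro h0
  obtain ⟨N, hN⟩ := (Module.End.mem_maxGenEigenspace _ _ _).1 (hB l)
  rw [h0, zero_smul, sub_zero] at hN
  have hinj : Function.Injective (frob Φ X 1) :=
    LinearMap.injective_iff_surjective.2 (map_iter_surjective Φ 1)
  have h2 : Function.Injective ((frob Φ X 1 ^ N : Module.End W.K (W.H X))) := by
    rw [Module.End.coe_pow]
    exact hinj.iterate N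
  exact B.b.ne_zero l (h2 (by rw [hN, map_zero]))

/-- The powers of the Frobenius endomorphism of the Weil restriction. -/
lemma weil_pow (n s : ℕ) : gg W (weilFrob Φ X n s) ^ (n + 1) = gg W (dFrob Φ X n (s * (n + 1))) := by
  rw [gg_pow]
  apply LinearMap.ext
  intro x
  refine map_ext_pr (fun i y => ?_) x
  have h1 : W.map (Pool.Agent.W534.iter (weilFrob Φ X n s) (n + 1)) (W.map (pr X n i) y) =
      (gg W (weilFrob Φ X n s) ^ (n + 1)) (W.map (pr X n i) y) := by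
    rw [gg_pow]; rfl
  have h2 : (n + 1) • (1 : Fin (n + 1)) = 0 := by
    have h3 := card_nsmul_eq_zero (x := (1 : Fin (n + 1)))
    rw [Fintype.card_fin] at h3
    exact h3
  rw [h1, weil_pow_pr, h2, add_zero, map_d_pr, ← frob_mul_eq]

/-- **The level of the generalised Tate classes.** -/
theorem level (Φ : FrobSystem W p) (X : 𝒱.Obj) [IsAlgClosed W.K] (hp : 0 < p) :
    ∃ τ : ℕ, 0 < τ ∧ ∀ n s j : ℕ, τ ∣ s * (n + 1) → ∀ x ∈ genU Φ (pw X n) j,
      x ∈ (gg W (weilFrob Φ X n s) ^ (n + 1)).maxGenEigenspace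
        (((Pool.Agent.W534.card Φ X s : W.K) ^ j) ^ (n + 1)) := by
  classical
  obtain ⟨ι, hfin, B, lam, hB⟩ := exists_ebasis Φ X
  have hq : ((p ^ Φ.e X : ℕ) : W.K) ≠ 0 := Nat.cast_ne_zero.2 (pow_ne_zero _ hp.ne')
  obtain ⟨τ, hτ, h⟩ := exists_exponent_field lam (lam_ne hB) hq
  have hft : Fintype ι := Fintype.ofFinite ι
  refine ⟨τ, hτ, fun n s j hdvd x hx => ?_⟩
  obtain ⟨s', hs', hx'⟩ := (mem_genU Φ).1 hx
  obtain ⟨bs, hbs⟩ := exists_monBasis B n
  rw [← bs.sum_repr x]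
  refine Submodule.sum_mem _ fun I _ => ?_
  by_cases h0 : bs.repr x I = 0
  · rw [h0, zero_smul]; exact Submodule.zero_mem _
  refine Submodule.smul_mem _ _ ?_
  obtain ⟨h1, ⟨_, t, ht, h2⟩⟩ := isT_of_repr Φ hB hbs hs' hx' h0
  have h3 := h (n + 1) I j ⟨2 * t, by omega, by
    rw [prod_cnt, h2, ← sum_cnt_nat, h1, ← pow_mul]
    congr 1
    ring⟩
  obtain ⟨r, hr⟩ := hdvd
  have h4 : (∏ i, lam (I i)) ^ (s * (n + 1)) = ((Pool.Agent.W534.card Φ X s : W.K) ^ j) ^ (n + 1) := by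
    rw [hr, pow_mul, h3, ← pow_mul, ← hr, Pool.Agent.W534.card, ← Nat.cast_pow, ← Nat.cast_pow,
      ← Nat.cast_pow, ← Nat.cast_pow, ← pow_mul, ← pow_mul, ← pow_mul, ← pow_mul]
    congr 2
    ring
  rw [hbs, mon_monv, weil_pow, ← h4, ← Finset.prod_pow]
  refine monv_gen fun i => ?_
  have h5 := gen_mono (frob Φ X 1) (lam (I i)) (s * (n + 1)) (hB (I i))
  rwa [← frob_mul_eq, one_mul] at h5

end Pool.Agent.H50.WA
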