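import Mathlib

/-!
# Equidistribution of the generalised eigenspaces of a twisted operator
-/

set_option linter.unusedSectionVars false

open Finset Polynomial Module

namespace Pool.Agent.H50.WA

variable {K V : Type*} [Field K] [AddCommGroup V] [Module K V] [FiniteDimensional K V]

/-- The dimension of the part of `U` in a generalised eigenspace. -/
noncomputable def dg (f : End K V) (U : Submodule K V) (ν : K) : ℕ :=
  finrank K (f.maxGenEigenspace ν ⊓ U : Submodule K V)

lemma dg_eq_count [DecidableEq K] {f : End K V} {U : Submodule K V} (hf : ∀ x ∈ U, f x ∈ U) (ν : K) :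
    dg f U ν = (f.restrict hf).charpoly.roots.count ν := by
  rw [count_roots, ← LinearMap.finrank_maxGenEigenspace_eq]
  have h1 := Submodule.inf_genEigenspace f U (k := ⊤) (μ := ν) hf
  rw [dg, inf_comm, show f.maxGenEigenspace ν = f.genEigenspace ν ⊤ from rfl, h1]
  exact (Submodule.equivMapOfInjective _ (Submodule.subtype_injective _) _).finrank_eq.symm

lemma sum_dg [IsAlgClosed K] {f : End K V} {U : Submodule K V} (hf : ∀ x ∈ U, f x ∈ U)
    {m : ℕ} {μ ω : K} (hω : IsPrimitiveRoot ω m) (hm : 0 < m)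
    (hμ : μ ≠ 0) (hU : U ≤ (f ^ m).maxGenEigenspace (μ ^ m)) :
    finrank K U = ∑ i ∈ range m, dg f U (ω ^ i * μ) := by
  classical
  have h1 : finrank K U = Multiset.card (f.restrict hf).charpoly.roots := by
    rw [← (IsAlgClosed.splits (f.restrict hf).charpoly).natDegree_eq_card_roots,
      LinearMap.charpoly_natDegree]
  have hinj : Set.InjOn (fun i => ω ^ i * μ) (range m : Set ℕ) := by
    intro i hi j hj hij
    have h2 := mul_right_cancel₀ hμ hij
    exact hω.pow_inj (Finset.mem_range.1 hi) (Finset.mem_range.1 hj) h2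
  rw [h1, ← Finset.sum_image (f := fun ν => dg f U ν) hinj]
  have h2 : ∀ ν ∈ (f.restrict hf).charpoly.roots, ν ∈ (range m).image fun i => ω ^ i * μ := by
    intro ν hν
    have h3 : Module.End.HasEigenvalue (f.restrict hf) ν := by
      rw [Module.End.hasEigenvalue_iff_isRoot_charpoly]
      exact (mem_roots (LinearMap.charpoly_monic _).ne_zero).1 hν
    obtain ⟨v, hv⟩ := h3.exists_hasEigenvector
    have hv1 : f (v : V) = ν • (v : V) := congrArg Subtype.val hv.apply_eq_smul
    have hv2 : ∀ n : ℕ, (f ^ n) (v : V) = ν ^ n • (v : V) := by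
      intro n
      induction n with
      | zero => rw [pow_zero, pow_zero, one_smul, Module.End.one_apply]
      | succ n ih => rw [pow_succ', Module.End.mul_apply, ih, map_smul, hv1, smul_smul, pow_succ]
    have hv0 : (v : V) ≠ 0 := fun h => hv.2 (Subtype.ext h)
    obtain ⟨k, hk⟩ := (Module.End.mem_maxGenEigenspace _ _ _).1 (hU v.2)
    have h4 : ∀ k : ℕ, ((f ^ m - μ ^ m • (1 : End K V)) ^ k) (v : V) =
        (ν ^ m - μ ^ m) ^ k • (v : V) := by
      intro k
      induction k with
      | zero => rw [pow_zero, pow_zero, one_smul, Module.End.one_apply]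
      | succ k ih =>
        rw [pow_succ', Module.End.mul_apply, ih, map_smul, LinearMap.sub_apply,
          LinearMap.smul_apply, Module.End.one_apply, hv2, ← sub_smul, smul_smul, pow_succ]
    rw [h4 k, smul_eq_zero] at hk
    have h5 : ν ^ m = μ ^ m := sub_eq_zero.1 (eq_zero_of_pow_eq_zero (hk.resolve_right hv0))
    have h6 : (ν / μ) ^ m = 1 := by rw [div_pow, h5, div_self (pow_ne_zero _ hμ)]
    have : NeZero m := ⟨hm.ne'⟩
    obtain ⟨i, hi, h7⟩ := hω.eq_pow_of_pow_eq_one h6
    refine Finset.mem_image.2 ⟨i, Finset.mem_range.2 hi, ?_⟩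
    change ω ^ i * μ = ν
    rw [h7, div_mul_cancel₀ _ hμ]
  rw [← Multiset.sum_count_eq_card h2]
  exact Finset.sum_congr rfl fun ν _ => (dg_eq_count hf ν).symm

/-- Twisting operators move the generalised eigenspaces. -/
lemma dg_le {f T : End K V} {U P : Submodule K V} {ζ : K} (hζ : ζ ≠ 0)
    (hT : ∀ x, T (f x) = ζ • f (T x)) (hTU : ∀ x ∈ U, T x ∈ U)
    (hker : ∀ x, T x = 0 → x ∈ P) (μ : K) :
    dg f U (ζ * μ) ≤ dg f U μ + finrank K P := by
  set A : Submodule K V := f.maxGenEigenspace (ζ * μ) ⊓ U with hA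
  have key : ∀ (k : ℕ) (x : V), ((f - μ • (1 : End K V)) ^ k) (T x) =
      (ζ⁻¹) ^ k • T (((f - (ζ * μ) • (1 : End K V)) ^ k) x) := by
    intro k
    induction k with
    | zero => intro x; rw [pow_zero, pow_zero, pow_zero, one_smul]; rfl
    | succ k ih =>
      intro x
      have h1 : (f - μ • (1 : End K V)) (T x) = ζ⁻¹ • T ((f - (ζ * μ) • (1 : End K V)) x) := by
        rw [LinearMap.sub_apply, LinearMap.sub_apply, LinearMap.smul_apply, LinearMap.smul_apply,
          Module.End.one_apply, Module.End.one_apply, map_sub, hT, map_smul, smul_sub, smul_smul,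
          inv_mul_cancel₀ hζ, one_smul, smul_smul, ← mul_assoc, inv_mul_cancel₀ hζ, one_mul]
      rw [pow_succ, Module.End.mul_apply, h1, map_smul, ih, smul_smul,
        pow_succ (f - (ζ * μ) • (1 : End K V)), Module.End.mul_apply, pow_succ']
  have hmem : ∀ x ∈ A, T x ∈ (f.maxGenEigenspace μ ⊓ U : Submodule K V) := by
    intro x hx
    refine ⟨?_, hTU x hx.2⟩
    obtain ⟨k, hk⟩ := (Module.End.mem_maxGenEigenspace _ _ _).1 hx.1
    exact (Module.End.mem_maxGenEigenspace _ _ _).2 ⟨k, by rw [key, hk, map_zero, smul_zero]⟩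
  set T' : A →ₗ[K] (f.maxGenEigenspace μ ⊓ U : Submodule K V) := T.restrict hmem with hT'
  have h1 := LinearMap.finrank_range_add_finrank_ker T'
  have h2 : finrank K (LinearMap.range T') ≤ dg f U μ := Submodule.finrank_le _
  have h3 : finrank K (LinearMap.ker T') ≤ finrank K P := by
    have e := (Submodule.equivMapOfInjective A.subtype (Submodule.subtype_injective _)
      (LinearMap.ker T')).finrank_eq
    rw [e]
    apply Submodule.finrank_mono
    rintro _ ⟨x, hx, rfl⟩
    exact hker _ (congrArg Subtype.val (LinearMap.mem_ker.1 hx))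
  change finrank K A ≤ _
  omega

/-- **Equidistribution.** -/
theorem equi [IsAlgClosed K] {f : End K V} {U P : Submodule K V} (hf : ∀ x ∈ U, f x ∈ U)
    {m : ℕ} {μ : K} {ω : K} (hω : IsPrimitiveRoot ω m) (hm : 0 < m)
    (hμ : μ ≠ 0) (hU : U ≤ (f ^ m).maxGenEigenspace (μ ^ m))
    (hT : ∀ ζ : K, ζ ^ m = 1 → ∃ T : End K V, (∀ x, T (f x) = ζ • f (T x)) ∧ (∀ x ∈ U, T x ∈ U) ∧
      ∀ x, T x = 0 → x ∈ P) :
    m * dg f U μ ≤ finrank K U + m * finrank K P ∧
      finrank K U ≤ m * dg f U μ + m * finrank K P := by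
  have hne : ∀ ζ : K, ζ ^ m = 1 → ζ ≠ 0 := by
    rintro ζ h rfl
    rw [zero_pow hm.ne'] at h
    exact zero_ne_one h
  have hone : ∀ i, (ω ^ i) ^ m = 1 := fun i => by rw [← pow_mul, mul_comm, pow_mul, hω.pow_eq_one,
    one_pow]
  have h1 : ∀ ζ : K, ζ ^ m = 1 → ∀ ν, dg f U (ζ * ν) ≤ dg f U ν + finrank K P := by
    intro ζ hζ ν
    obtain ⟨T, t1, t2, t3⟩ := hT ζ hζ
    exact dg_le (hne ζ hζ) t1 t2 t3 ν
  have h2 := sum_dg hf hω hm hμ hU
  constructor
  · calc m * dg f U μ = ∑ _i ∈ range m, dg f U μ := by rw [Finset.sum_const, card_range, smul_eq_mul]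
      _ ≤ ∑ i ∈ range m, (dg f U (ω ^ i * μ) + finrank K P) := by
          refine Finset.sum_le_sum fun i _ => ?_
          have h3 := h1 (ω ^ i)⁻¹ (by rw [inv_pow, hone, inv_one]) (ω ^ i * μ)
          rwa [← mul_assoc, inv_mul_cancel₀ (hne _ (hone i)), one_mul] at h3
      _ = finrank K U + m * finrank K P := by
          rw [Finset.sum_add_distrib, ← h2, Finset.sum_const, card_range, smul_eq_mul]
  · rw [h2]
    calc ∑ i ∈ range m, dg f U (ω ^ i * μ) ≤ ∑ _i ∈ range m, (dg f U μ + finrank K P) :=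
          Finset.sum_le_sum fun i _ => h1 _ (hone i) μ
      _ = m * dg f U μ + m * finrank K P := by
          rw [Finset.sum_const, card_range, smul_eq_mul, mul_add]

end Pool.Agent.H50.WA
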