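import Pool.Agent.H50.WA.Asy
import Pool.Agent.H50.WA.Defs

/-!
# The index law for the Weil restrictions
-/

set_option linter.unusedSectionVars false

open CategoryTheory AlgebraicGeometry Filter Topology

open scoped ENNReal

universe u v

namespace Pool.Agent.H50.WA

open Module
open Pool.Agent.H914 Pool.Agent.W534 VarClass Obj WeilCohomology Pool.Agent.H281R3.HT
  Pool.Agent.W536.RR
open Pool.Agent.H50.WR
open Pool.Agent.Y163 (pw Big dim_pw genU)
open Pool.Agent.Y133.Half (algSys tateSys TC Sys PH cycRank spanCycles_of_algSpan)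
open Pool.Agent.R936 (span_le_algSpan)
open Pool.Agent.H44T.PT (cyc_eq pole_iff poleTotal IsPoleTotal)

variable {k : Type u} [Field k] {𝒱 : VarClass k} {ops : CycleOps 𝒱}
  {W : WeilCohomology.{u, v} ops} {X Y Z : 𝒱.Obj} {p : ℕ} {Φ : FrobSystem W p} {n : ℕ}

lemma genE_le {f : Z ⟶ Z} {Q : ℕ} (hf : IsFr Φ f Q) (j : ℕ) :
    genE W f Q j ≤ (tateSys Φ).C Z := by
  obtain ⟨_, m, s, hm, hs, h1, h2⟩ := id hf
  intro x hx
  have h4 : x ∈ genU Φ Z j := by
    refine (Pool.Agent.Y163.mem_genU Φ).2 ⟨s, hs, ?_, hx.2⟩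
    have h3 := gen_mono _ _ m hx.1
    change x ∈ (frob Φ Z s).maxGenEigenspace _
    rw [← h1, ← h2, Nat.cast_pow, pow_right_comm]
    exact h3
  exact Pool.Agent.H44T.PT.genU_le_TC Φ Z j h4

lemma dg_tate {f : Z ⟶ Z} {Q : ℕ} (hf : IsFr Φ f Q) (j : ℕ) :
    dg (gg W f) ((tateSys Φ).C Z ⊓ W.gr Z (2 * j)) ((Q : W.K) ^ j) =
      finrank W.K (genE W f Q j) := by
  have h1 : ((gg W f).maxGenEigenspace ((Q : W.K) ^ j) ⊓ ((tateSys Φ).C Z ⊓ W.gr Z (2 * j)) :
      Submodule W.K (W.H Z)) = genE W f Q j := by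
    ext x
    constructor
    · rintro ⟨a, b, c⟩
      exact ⟨a, c⟩
    · intro hx
      exact ⟨hx.1, genE_le hf j hx, hx.2⟩
  rw [dg, h1]

lemma dg_rank {f : Z ⟶ Z} {Q : ℕ} (hf : IsFr Φ f Q) {j : ℕ} (hj : j ≤ Z.dim) :
    rationalRank ops f Q j +
      dg (gg W f) ((algSys W).Num Z ⊓ W.gr Z (2 * j)) ((Q : W.K) ^ j) =
      dg (gg W f) (algSpan W Z ⊓ W.gr Z (2 * j)) ((Q : W.K) ^ j) := by
  have h1 : ((gg W f).maxGenEigenspace ((Q : W.K) ^ j) ⊓ (algSpan W Z ⊓ W.gr Z (2 * j)) :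
      Submodule W.K (W.H Z)) = genE W f Q j ⊓ spanCycles W Z j := by
    ext x
    constructor
    · rintro ⟨a, b, c⟩
      exact ⟨⟨a, c⟩, spanCycles_of_algSpan b c⟩
    · rintro ⟨⟨a, b⟩, c⟩
      exact ⟨a, span_le_algSpan c, b⟩
  have h2 : ((gg W f).maxGenEigenspace ((Q : W.K) ^ j) ⊓ ((algSys W).Num Z ⊓ W.gr Z (2 * j)) :
      Submodule W.K (W.H Z)) = genE W f Q j ⊓ ((algSys W).Num Z ⊓ spanCycles W Z j) := by
    ext x
    constructor
    · rintro ⟨a, b, c⟩
      exact ⟨⟨a, c⟩, b, spanCycles_of_algSpan b.1 c⟩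
    · rintro ⟨⟨a, b⟩, c, d⟩
      exact ⟨a, c, b⟩
  rw [dg, dg, h1, h2]
  exact rank_eq hf hj

lemma eq_rank_iff (Y : 𝒱.Obj) : (algSys W).C Y = (tateSys Φ).C Y ∧ (algSys W).Num Y = ⊥ ↔
    (algSys W).a Y = finrank W.K ((tateSys Φ).C Y) := by
  have hle := Submodule.finrank_mono (Pool.Agent.Y133.Half.alg_le_tate Φ Y)
  have hadd := (algSys W).a_add_num Y
  have e1 : (algSys W).C Y = algSpan W Y := rfl
  constructor
  · rintro ⟨h1, h2⟩
    rw [h2, finrank_bot, add_zero, h1] at hadd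
    exact hadd
  · intro h
    refine ⟨Submodule.eq_of_le_of_finrank_le (Pool.Agent.Y133.Half.alg_le_tate Φ Y) (by omega), ?_⟩
    rw [← Submodule.finrank_eq_zero]
    omega

/-- **The index law for the Weil restrictions.** -/
theorem weil_index [hp : Fact p.Prime] {σ : W.K →+* ℂ} [IsAlgClosed W.K]
    (hRH : ∀ Z, RiemannHyp Φ σ Z) (hX : 0 < X.dim) {E : X.Cycles}
    (hE : X.IsCyc 1 E) (hbig : Big ops X E) :
    ∃ N : ℕ∞, 1 ≤ N ∧
      (N = 1 ↔ ∀ n j, j ≤ (pw X n).dim → PoleFormula Φ σ (pw X n) j) ∧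
      ∃ (z : ℕ → ℕ) (y : ℕ → ℕ → ℕ), (∀ n, IsPoleTotal Φ σ (pw X n) (z n)) ∧
        (∀ n s, 0 < s →
          IsPoleSum W σ (weilFrob Φ X n s) (Pool.Agent.W534.card Φ X s) (y n s)) ∧
        Tendsto (fun n => (z n : ℝ≥0∞) / cycRank ops (pw X n)) atTop (𝓝 (N : ℝ≥0∞)) ∧
        ∃ τ : ℕ, 0 < τ ∧ ∀ ν s : ℕ → ℕ, Tendsto ν atTop atTop → (∀ i, 0 < s i) →
          (∀ i, τ ∣ s i * (ν i + 1)) →
          Tendsto (fun i => (y (ν i) (s i) : ℝ≥0∞) /
            rankSum ops (weilFrob Φ X (ν i) (s i)) (Pool.Agent.W534.card Φ X (s i)))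
            atTop (𝓝 (N : ℝ≥0∞)) ∧
          Tendsto (fun i => (((ν i + 1 : ℕ) : ℝ) * y (ν i) (s i)) / z (ν i)) atTop (𝓝 1) := by
  classical
  have htr : W.tr X (W.cl X E ^ X.dim) ≠ 0 := hbig.tr hE
  have h1 : (1 : W.H X) ≠ 0 := by
    intro h
    apply htr
    rw [← mul_one (W.cl X E ^ X.dim), h, mul_zero, map_zero]
  have hnt : Nontrivial (W.H X) := ⟨1, 0, h1⟩
  have hH : 0 < finrank W.K (W.H X) := Module.finrank_pos
  have hb2 : 2 ≤ finrank W.K (W.H X) := by
    have h2 : LinearIndependent W.K ![(1 : W.H X), W.cl X E ^ X.dim] := by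
      rw [LinearIndependent.pair_iff]
      intro a c hac
      have h3 := congrArg (W.tr X) hac
      rw [map_add, map_smul, map_smul, map_zero,
        W.tr_eq_zero (W.one_mem X) (by omega : (0 : ℕ) ≠ 2 * X.dim), smul_zero, zero_add,
        smul_eq_mul] at h3
      have h4 : c = 0 := (mul_eq_zero.1 h3).resolve_right htr
      rw [h4, zero_smul, add_zero] at hac
      exact ⟨(smul_eq_zero.1 hac).resolve_right h1, h4⟩
    have h3 := h2.fintype_card_le_finrank
    simpa using h3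
  have hξ := W.cl_mem hE
  have hξa : W.cl X E ∈ algSpan W X :=
    span_le_algSpan (j := 1) (Pool.Agent.H447.mem_span_cl hE)
  obtain ⟨τ, hτ, hcount⟩ := count Φ X hp.out.one_lt hξ hξa htr hX
  obtain ⟨N, hN1, hN2, -, hN4⟩ :=
    Pool.Agent.V1142.XZ.base_law (S := algSys W) (T := tateSys Φ)
      (Pool.Agent.Y133.Half.alg_le_tate Φ) X
  -- the comparison of the two definitions of powers
  have eT : ∀ n, finrank W.K ((tateSys Φ).C (Pool.Agent.Y133.Half.pw X n)) =
      finrank W.K ((tateSys Φ).C (pw X n)) := fun n =>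
    ((tateSys Φ).finrank_C_iso (pwIso163 X n)).symm
  have eA : ∀ n, (algSys W).a (Pool.Agent.Y133.Half.pw X n) = cycRank ops (pw X n) := by
    intro n
    rw [← cyc_eq (W := W)]
    exact ((algSys W).a_iso (pwIso163 X n)).symm
  set z : ℕ → ℕ := fun n => finrank W.K ((tateSys Φ).C (pw X n)) with hz
  set y : ℕ → ℕ → ℕ := fun n s => ∑ j ∈ Finset.range ((pw X n).dim + 1),
    finrank W.K (genE W (weilFrob Φ X n s) (Pool.Agent.W534.card Φ X s) j) with hy
  have hlim : Tendsto (fun n => (z n : ℝ≥0∞) / cycRank ops (pw X n)) atTop (𝓝 (N : ℝ≥0∞)) := by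
    refine hN2.congr fun n => ?_
    rw [eT, eA]
  have hzpos : ∀ n, 0 < z n := by
    intro n
    have hn : Nontrivial (W.H (Pool.Agent.Y133.Half.pw X n)) :=
      Pool.Agent.V1142.XZ.nontrivial_pw X n
    have h5 := Pool.Agent.V1142.XZ.posC (tateSys Φ) (Pool.Agent.Y133.Half.pw X n)
    rw [eT] at h5
    exact h5
  refine ⟨N, hN1, ?_, z, y, fun n => poleTotal Φ σ hp.out.one_lt (hRH _), fun n s hs => ?_, hlim,
    τ, hτ, fun ν s hν hs hdvd => ?_⟩
  · rw [hN4]
    refine forall_congr' fun n => ?_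
    have h5 := pole_iff (W := W) Φ hp.out.one_lt (hRH (pw X n))
    rw [show (∀ j, j ≤ (pw X n).dim → PoleFormula Φ σ (pw X n) j) ↔ _ from h5, eq_rank_iff,
      eq_rank_iff, eT, eA, cyc_eq]
  · exact ⟨_, fun j hj => order_zetaOf (hRH _) (isFr_weil hp.out.one_lt X n hs) hj, rfl⟩
  · have hr := tendsto_real_quot hN1 hlim hzpos
    have hE0 : Tendsto (fun n => (er (finrank W.K (W.H X)) X.dim n : ℝ) / z n) atTop (𝓝 0) := by
      rw [Metric.tendsto_atTop]
      intro ε hε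
      obtain ⟨n₀, hn₀⟩ := er_small (d := X.dim) (z := z) hb2 (fun l m₀ n _ hn => by
        have h5 := sys_growth (tateSys Φ) X hH l m₀ n hn
        rw [eT] at h5
        exact h5) (half_pos hε)
      refine ⟨n₀, fun n hn => ?_⟩
      have h5 : (0 : ℝ) < z n := by exact_mod_cast hzpos n
      rw [Real.dist_eq, sub_zero, abs_of_nonneg (by positivity), div_lt_iff₀ h5]
      have h6 := hn₀ n hn
      nlinarith
    have hC := fun i => hcount (ν i) (s i) (hs i) (hdvd i)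
    have hdim : ∀ i, ((pw X (ν i)).dim + 1) * ((ν i + 1) * eb (finrank W.K (W.H X)) (ν i)) =
        er (finrank W.K (W.H X)) X.dim (ν i) := fun i => by rw [er, dim_pw]
    have hfr : ∀ i, IsFr Φ (weilFrob Φ X (ν i) (s i)) (Pool.Agent.W534.card Φ X (s i)) :=
      fun i => isFr_weil hp.out.one_lt X _ (hs i)
    -- the orders of the poles
    have hyT : ∀ i, y (ν i) (s i) = ∑ j ∈ Finset.range ((pw X (ν i)).dim + 1),
        dg (gg W (weilFrob Φ X (ν i) (s i))) ((tateSys Φ).C (pw X (ν i)) ⊓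
          W.gr (pw X (ν i)) (2 * j)) ((Pool.Agent.W534.card Φ X (s i) : W.K) ^ j) := fun i =>
      Finset.sum_congr rfl fun j _ => (dg_tate (hfr i) j).symm
    have hZ1 : ∀ i, (ν i + 1) * y (ν i) (s i) ≤ z (ν i) + er (finrank W.K (W.H X)) X.dim (ν i) := by
      intro i
      have h5 := (hC i _ good_tate).1
      rw [hdim, ← hyT] at h5
      exact h5
    have hZ2 : ∀ i, z (ν i) ≤ (ν i + 1) * y (ν i) (s i) + er (finrank W.K (W.H X)) X.dim (ν i) := by
      intro i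
      have h5 := (hC i _ good_tate).2
      rw [hdim, ← hyT] at h5
      exact h5
    -- the ranks
    have hR : ∀ i, rankSum ops (weilFrob Φ X (ν i) (s i)) (Pool.Agent.W534.card Φ X (s i)) +
        ∑ j ∈ Finset.range ((pw X (ν i)).dim + 1),
        dg (gg W (weilFrob Φ X (ν i) (s i))) ((algSys W).Num (pw X (ν i)) ⊓
          W.gr (pw X (ν i)) (2 * j)) ((Pool.Agent.W534.card Φ X (s i) : W.K) ^ j) =
        ∑ j ∈ Finset.range ((pw X (ν i)).dim + 1),
        dg (gg W (weilFrob Φ X (ν i) (s i))) (algSpan W (pw X (ν i)) ⊓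
          W.gr (pw X (ν i)) (2 * j)) ((Pool.Agent.W534.card Φ X (s i) : W.K) ^ j) := by
      intro i
      rw [rankSum, ← Finset.sum_add_distrib]
      exact Finset.sum_congr rfl fun j hj => dg_rank (hfr i)
        (by rw [Finset.mem_range] at hj; omega)
    have hRR : ∀ i, (ν i + 1) * rankSum ops (weilFrob Φ X (ν i) (s i))
          (Pool.Agent.W534.card Φ X (s i)) ≤
          cycRank ops (pw X (ν i)) + 2 * er (finrank W.K (W.H X)) X.dim (ν i) ∧
        cycRank ops (pw X (ν i)) ≤ (ν i + 1) * rankSum ops (weilFrob Φ X (ν i) (s i))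
          (Pool.Agent.W534.card Φ X (s i)) + 2 * er (finrank W.K (W.H X)) X.dim (ν i) := by
      intro i
      obtain ⟨a1, a2⟩ := hC i _ good_alg
      obtain ⟨b1, b2⟩ := hC i _ good_num
      rw [hdim] at a1 a2 b1 b2
      have h5 := congrArg (fun t => (ν i + 1) * t) (hR i)
      simp only [Nat.mul_add (ν i + 1) (rankSum ops _ _)] at h5
      have h6 := (algSys W).a_add_num (pw X (ν i))
      rw [cyc_eq] at h6
      change _ = finrank W.K (algSpan W (pw X (ν i))) at h6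
      constructor <;> omega
    have hq := tendsto_quot (z := fun i => z (ν i)) (r := fun i => cycRank ops (pw X (ν i)))
      (E := fun i => er (finrank W.K (W.H X)) X.dim (ν i)) (zz := fun i => y (ν i) (s i))
      (rr := fun i => rankSum ops (weilFrob Φ X (ν i) (s i)) (Pool.Agent.W534.card Φ X (s i)))
      (m := fun i => ν i + 1) (fun i => hzpos _) (hE0.comp hν) (hr.comp hν) hZ1 hZ2
      (fun i => (hRR i).1) (fun i => (hRR i).2) fun i => Nat.succ_pos _
    refine ⟨tendsto_inv_quot hN1 hq.1 hq.2, ?_⟩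
    have hz' : ∀ i, (0 : ℝ) < z (ν i) := fun i => by exact_mod_cast hzpos _
    have hE' := hE0.comp hν
    have e1 : Tendsto (fun i => 1 - (er (finrank W.K (W.H X)) X.dim (ν i) : ℝ) / z (ν i)) atTop
        (𝓝 1) := by simpa using tendsto_const_nhds.sub hE'
    have e2 : Tendsto (fun i => 1 + (er (finrank W.K (W.H X)) X.dim (ν i) : ℝ) / z (ν i)) atTop
        (𝓝 1) := by simpa using tendsto_const_nhds.add hE'
    refine tendsto_of_tendsto_of_tendsto_of_le_of_le e1 e2 (fun i => ?_) (fun i => ?_)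
    · have h : (z (ν i) : ℝ) ≤ ((ν i + 1 : ℕ) : ℝ) * y (ν i) (s i) +
          er (finrank W.K (W.H X)) X.dim (ν i) := by exact_mod_cast hZ2 i
      change 1 - (er (finrank W.K (W.H X)) X.dim (ν i) : ℝ) / z (ν i) ≤ _
      rw [sub_le_iff_le_add, ← add_div, le_div_iff₀ (hz' i), one_mul]
      exact h
    · have h : ((ν i + 1 : ℕ) : ℝ) * y (ν i) (s i) ≤ z (ν i) +
          er (finrank W.K (W.H X)) X.dim (ν i) := by exact_mod_cast hZ1 i
      change _ ≤ 1 + (er (finrank W.K (W.H X)) X.dim (ν i) : ℝ) / z (ν i)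
      rw [div_le_iff₀ (hz' i), add_mul, one_mul, div_mul_cancel₀ _ (hz' i).ne']
      exact h

end Pool.Agent.H50.WA
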