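import Mathlib

/-!
# Patterns, rotations and characters
-/

set_option linter.unusedSectionVars false

open Finset

namespace Pool.Agent.H50.WA

variable {n : ℕ}

/-- Rotation of a pattern. -/
def rotA (a : Fin (n + 1)) (A : Fin (n + 1) → Bool) : Fin (n + 1) → Bool := fun i => A (i - a)

lemma rotA_zero (A : Fin (n + 1) → Bool) : rotA 0 A = A := by
  funext i
  rw [rotA, sub_zero]

lemma rotA_rotA (a b : Fin (n + 1)) (A : Fin (n + 1) → Bool) :
    rotA a (rotA b A) = rotA (a + b) A := by
  funext i
  rw [rotA, rotA, rotA, sub_sub]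

/-- A pattern with a nontrivial rotational symmetry. -/
def Per (A : Fin (n + 1) → Bool) : Prop := ∃ a, a ≠ 0 ∧ rotA a A = A

lemma per_rot {a : Fin (n + 1)} {A : Fin (n + 1) → Bool} : Per (rotA a A) ↔ Per A := by
  constructor
  · rintro ⟨c, hc, h⟩
    refine ⟨c, hc, ?_⟩
    have h1 := congrArg (rotA (-a)) h
    rw [rotA_rotA, rotA_rotA, rotA_rotA, neg_add_cancel, rotA_zero] at h1
    have h2 : -a + c + a = c := by abel
    rwa [h2] at h1
  · rintro ⟨c, hc, h⟩
    refine ⟨c, hc, ?_⟩
    rw [rotA_rotA, add_comm c a, ← rotA_rotA, h]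

/-- The equivalence relation of the rotations. -/
def rotSetoid (n : ℕ) : Setoid (Fin (n + 1) → Bool) where
  r A A' := ∃ a, A' = rotA a A
  iseqv :=
    { refl := fun A => ⟨0, (rotA_zero A).symm⟩
      symm := by
        rintro A A' ⟨a, rfl⟩
        exact ⟨-a, by rw [rotA_rotA, neg_add_cancel, rotA_zero]⟩
      trans := by
        rintro A A' A'' ⟨a, rfl⟩ ⟨b, rfl⟩
        exact ⟨b + a, by rw [rotA_rotA]⟩ }

/-- **Characters of the rotations on the patterns.** -/
theorem exists_theta {K : Type*} [Field K] {ζ : K} (hζ : ζ ^ (n + 1) = 1) :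
    ∃ θ : (Fin (n + 1) → Bool) → K, (∀ A, θ (rotA 1 A) = ζ * θ A) ∧ ∀ A, θ A = 0 → Per A := by
  classical
  have hζ0 : ζ ≠ 0 := by
    rintro rfl
    rw [zero_pow (Nat.succ_ne_zero n)] at hζ
    exact zero_ne_one hζ
  let s := rotSetoid n
  let rep : (Fin (n + 1) → Bool) → (Fin (n + 1) → Bool) := fun A => (Quotient.mk s A).out
  have hrep : ∀ A, ∃ a, A = rotA a (rep A) := fun A => by
    have h1 : s.r (rep A) A := Quotient.exact (Quotient.out_eq (Quotient.mk s A))
    exact h1
  choose k hk using hrep
  refine ⟨fun A => if Per A then 0 else ζ ^ (k A : ℕ), fun A => ?_, fun A hA => ?_⟩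
  · by_cases hA : Per A
    · have h1 : Per (rotA 1 A) := per_rot.2 hA
      simp only [if_pos hA, if_pos h1, mul_zero]
    · have h1 : ¬ Per (rotA 1 A) := fun h => hA (per_rot.1 h)
      simp only [if_neg hA, if_neg h1]
      have h2 : rep (rotA 1 A) = rep A := by
        have h3 : Quotient.mk s (rotA 1 A) = Quotient.mk s A :=
          Quotient.sound (s := s) (s.iseqv.symm ⟨1, rfl⟩)
        change (Quotient.mk s (rotA 1 A)).out = _
        rw [h3]
      have h3 := hk (rotA 1 A)
      rw [h2] at h3
      have h4 : rotA (1 + k A) (rep A) = rotA (k (rotA 1 A)) (rep A) := by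
        rw [← rotA_rotA, ← hk A]
        exact h3
      have h5 : ¬ Per (rep A) := fun h => hA (by rw [hk A]; exact per_rot.2 h)
      have h6 : k (rotA 1 A) = 1 + k A := by
        by_contra hne
        apply h5
        refine ⟨-(k (rotA 1 A)) + (1 + k A), ?_, ?_⟩
        · intro h
          apply hne
          have := congrArg (fun x => k (rotA 1 A) + x) h
          simp only [add_neg_cancel_left, add_zero] at this
          exact this.symm
        · rw [← rotA_rotA, h4, rotA_rotA, neg_add_cancel, rotA_zero]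
      rw [h6]
      have h7 : ((1 + k A : Fin (n + 1)) : ℕ) = ((k A : ℕ) + 1) % (n + 1) := by
        rw [add_comm 1 (k A), Fin.val_add, Fin.val_one', Nat.add_mod_mod]
      rw [h7, ← pow_eq_pow_mod _ hζ, pow_succ, mul_comm]
  · by_contra h
    simp only [if_neg h] at hA
    exact pow_ne_zero _ hζ0 hA

section Count

variable {ι : Type*} [Fintype ι] [DecidableEq ι]

/-- The pattern of a word. -/
def pat (i0 : ι) (I : Fin (n + 1) → ι) : Fin (n + 1) → Bool := fun i => decide (I i = i0)

/-- The words which look periodic with the period `c`. -/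
def PerC (i0 : ι) (c : ℕ) (I : Fin (n + 1) → ι) : Prop :=
  ∀ i j : Fin (n + 1), j.val = i.val + c → (I i = i0 ↔ I j = i0)

lemma perC_of {i0 : ι} {I : Fin (n + 1) → ι} (h : Per (pat i0 I)) :
    ∃ c ∈ Finset.Icc 1 ((n + 1) / 2), PerC i0 c I := by
  obtain ⟨a, ha, h⟩ := h
  have ha1 : 0 < a.val := Nat.pos_of_ne_zero fun h => ha (Fin.ext h)
  have ha2 := a.isLt
  have key : ∀ i : Fin (n + 1), I (i - a) = i0 ↔ I i = i0 := by
    intro i
    have h1 := congrFun h i
    rw [rotA, pat, pat] at h1
    exact decide_eq_decide.1 h1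
  by_cases hle : a.val ≤ (n + 1) / 2
  · refine ⟨a.val, Finset.mem_Icc.2 ⟨ha1, hle⟩, fun i j hij => ?_⟩
    have h1 : j - a = i := by
      apply Fin.ext
      rw [Fin.sub_val_of_le (by rw [Fin.le_def]; omega)]
      omega
    rw [← h1]
    exact key j
  · refine ⟨n + 1 - a.val, Finset.mem_Icc.2 ⟨by omega, by omega⟩, fun i j hij => ?_⟩
    have h1 : i - a = j := by
      apply Fin.ext
      rw [Fin.sub_def]
      change (n + 1 - a.val + i.val) % (n + 1) = j.val
      rw [hij, add_comm]
      exact Nat.mod_eq_of_lt (by have := j.isLt; omega)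
    rw [← h1]
    exact (key i).symm

lemma card_perC {i0 j0 : ι} (hj : j0 ≠ i0) {c : ℕ} (hc : 1 ≤ c) (hcn : c ≤ n + 1) (T : Finset (Fin (n + 1) → ι))
    (hT : ∀ I ∈ T, PerC i0 c I) :
    T.card ≤ Fintype.card ι ^ c * (Fintype.card ι - 1) ^ (n + 1 - c) := by
  classical
  let t : Fin (n + 1) → Finset ι := fun i => if i.val < c then univ else univ.erase i0
  let φ : (Fin (n + 1) → ι) → (Fin (n + 1) → ι) := fun I i =>
    if i.val < c then I i else if I i = i0 then j0 else I i
  have h1 : T.card ≤ (Fintype.piFinset t).card := by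
    refine Finset.card_le_card_of_injOn φ (fun I hI => ?_) (fun I hI J hJ h => ?_)
    · rw [Finset.mem_coe, Fintype.mem_piFinset]
      intro i
      by_cases h : i.val < c
      · simp only [t, if_pos h]; exact Finset.mem_univ _
      · simp only [t, φ, if_neg h]
        by_cases h' : I i = i0
        · rw [if_pos h']; exact Finset.mem_erase.2 ⟨hj, Finset.mem_univ _⟩
        · rw [if_neg h']; exact Finset.mem_erase.2 ⟨h', Finset.mem_univ _⟩
    · have key : ∀ r : ℕ, ∀ i : Fin (n + 1), i.val = r → I i = J i := by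
        intro r
        induction r using Nat.strong_induction_on with
        | _ r ih =>
          intro i hi
          have h2 := congrFun h i
          by_cases h3 : i.val < c
          · simp only [φ, if_pos h3] at h2
            exact h2
          · simp only [φ, if_neg h3] at h2
            have hlt : i.val - c < n + 1 := by have := i.isLt; omega
            have h4 := ih (i.val - c) (by omega) ⟨i.val - c, hlt⟩ rfl
            have h5 := hT I hI ⟨i.val - c, hlt⟩ i (by change i.val = i.val - c + c; omega)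
            have h6 := hT J hJ ⟨i.val - c, hlt⟩ i (by change i.val = i.val - c + c; omega)
            rw [h4] at h5
            by_cases h7 : I i = i0
            · rw [h7, h6.1 (h5.2 h7)]
            · have h8 : J i ≠ i0 := fun h => h7 (h5.1 (h6.2 h))
              rw [if_neg h7, if_neg h8] at h2
              exact h2
      funext i
      exact key _ i rfl
  refine h1.trans (le_of_eq ?_)
  rw [Fintype.card_piFinset]
  have h2 : ∀ i : Fin (n + 1), (t i).card = (fun r : ℕ => if r < c then Fintype.card ι else
      Fintype.card ι - 1) i.val := by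
    intro i
    by_cases h : i.val < c
    · simp only [t, if_pos h]; exact Finset.card_univ
    · simp only [t, if_neg h]; rw [Finset.card_erase_of_mem (Finset.mem_univ _), Finset.card_univ]
  rw [Finset.prod_congr rfl fun i _ => h2 i, Fin.prod_univ_eq_prod_range (fun r : ℕ =>
    if r < c then Fintype.card ι else Fintype.card ι - 1) (n + 1)]
  obtain ⟨r, hr⟩ := Nat.exists_eq_add_of_le hcn
  rw [hr, Finset.prod_range_add, Nat.add_sub_cancel_left]
  congr 1
  · rw [Finset.prod_congr rfl (fun x hx => if_pos (Finset.mem_range.1 hx)), Finset.prod_const,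
      Finset.card_range]
  · rw [Finset.prod_congr rfl (fun x _ => if_neg (by omega)), Finset.prod_const,
      Finset.card_range]

/-- The number of the words with periodic pattern. -/
theorem card_per {i0 j0 : ι} (hj : j0 ≠ i0) (T : Finset (Fin (n + 1) → ι))
    (hT : ∀ I ∈ T, Per (pat i0 I)) :
    T.card ≤ (n + 1) * (Fintype.card ι ^ ((n + 1) / 2) *
      (Fintype.card ι - 1) ^ (n + 1 - (n + 1) / 2)) := by
  classical
  have h1 : T ⊆ (Finset.Icc 1 ((n + 1) / 2)).biUnion fun c => T.filter fun I => PerC i0 c I := by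
    intro I hI
    obtain ⟨c, hc, h⟩ := perC_of (hT I hI)
    exact Finset.mem_biUnion.2 ⟨c, hc, Finset.mem_filter.2 ⟨hI, h⟩⟩
  refine (Finset.card_le_card h1).trans (Finset.card_biUnion_le.trans ?_)
  calc ∑ c ∈ Finset.Icc 1 ((n + 1) / 2), (T.filter fun I => PerC i0 c I).card
      ≤ ∑ _c ∈ Finset.Icc 1 ((n + 1) / 2), (Fintype.card ι ^ ((n + 1) / 2) *
      (Fintype.card ι - 1) ^ (n + 1 - (n + 1) / 2)) := by
        refine Finset.sum_le_sum fun c hc => ?_
        obtain ⟨hc1, hc2⟩ := Finset.mem_Icc.1 hc
        refine (card_perC hj hc1 (by omega) _ fun I hI => (Finset.mem_filter.1 hI).2).trans ?_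
        have e1 : n + 1 - c = ((n + 1) / 2 - c) + (n + 1 - (n + 1) / 2) := by omega
        have e2 : Fintype.card ι ^ ((n + 1) / 2) = Fintype.card ι ^ c *
            Fintype.card ι ^ ((n + 1) / 2 - c) := by
          rw [← pow_add]
          congr 1
          omega
        rw [e1, pow_add, ← mul_assoc, e2]
        exact Nat.mul_le_mul_right _ (Nat.mul_le_mul_left _ (Nat.pow_le_pow_left (by omega) _))
    _ ≤ _ := by
        rw [Finset.sum_const, smul_eq_mul, Nat.card_Icc]
        exact Nat.mul_le_mul_right _ (by omega)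

end Count

end Pool.Agent.H50.WA
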