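import Pool.Agent.H50.WR.B
import Pool.Graph.R_seed8.Y133.Half.TateSS
import Pool.Graph.R_seed8.Y133.Half.DLaw

/-!
# The rank of the rational cycles and numerically trivial classes
-/

set_option linter.unusedSectionVars false

open CategoryTheory AlgebraicGeometry Finset Polynomial

universe u v

namespace Pool.Agent.H50.WA

open Pool.Agent.H914 Pool.Agent.H447 Pool.Agent.W534 VarClass Obj WeilCohomology
  Pool.Agent.H281R3.HT Pool.Agent.W536.RR
open Pool.Agent.H50.WR
open Pool.Agent.Y133.Half (algSys Sys PH spanCycles_of_algSpan)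
open Pool.Agent.R936 (span_le_algSpan)

variable {k : Type u} [Field k] {𝒱 : VarClass k} {ops : CycleOps 𝒱}
  {W : WeilCohomology.{u, v} ops} {Z : 𝒱.Obj} {p : ℕ} {Φ : FrobSystem W p}

/-- Numerically trivial classes in one codimension. -/
lemma num_of_span {j : ℕ} (hj : j ≤ Z.dim) {x : W.H Z} (hx : x ∈ spanCycles W Z j)
    (h : ∀ w, Z.IsCyc (Z.dim - j) w → W.tr Z (x * W.cl Z w) = 0) : x ∈ (algSys W).Num Z := by
  refine ⟨span_le_algSpan hx, fun d hd => ?_⟩
  refine algSpan_induction (p := fun d => W.tr Z (x * d) = 0) ?_ ?_ ?_ ?_ hd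
  · rw [mul_zero, map_zero]
  · intro a b ha hb
    rw [mul_add, map_add, ha, hb, add_zero]
  · intro t a ha
    rw [mul_smul_comm, map_smul, ha, smul_zero]
  · intro r z hz
    by_cases hr : r = Z.dim - j
    · subst hr
      exact h z hz
    · exact W.tr_eq_zero (W.mul_mem (Pool.Agent.H447.span_gr hx) (W.cl_mem hz)) (by omega)

/-- **The averages of rational cycles span.** -/
lemma avg_spans {f : Z ⟶ Z} {Q : ℕ} (hf : IsFr Φ f Q) {j L : ℕ} (hj : j ≤ Z.dim) (hL : 0 < L)
    (h1 : ∀ x ∈ spanCycles W Z j, (gg W f ^ L) x = (((Q : W.K) ^ j) ^ L) • x)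
    (v : (genE W f Q j ⊓ spanCycles W Z j : Submodule W.K (W.H Z))) :
    v ∈ Submodule.span W.K (Set.range fun z : {z : Z.Cycles // IsRationalCycle ops f Q j z} =>
      (⟨(L * ((Q : W.K) ^ j) ^ (L - 1))⁻¹ • avg (gg W f) ((Q : W.K) ^ j) L (W.cl Z z.1),
        Submodule.smul_mem _ _ ⟨avg_mem_genE h1 (mem_span_cl z.2.1),
          avg_span _ _ (mem_span_cl z.2.1)⟩⟩ :
        (genE W f Q j ⊓ spanCycles W Z j : Submodule W.K (W.H Z)))) := by
  have hq := qc_ne (j := j) hf hL
  obtain ⟨v, hv, hvs⟩ := v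
  have hev := eig_of_gen hf hv hvs
  have h2 : ∀ y ∈ spanCycles W Z j, ∀ hy : avg (gg W f) ((Q : W.K) ^ j) L y ∈
        (genE W f Q j ⊓ spanCycles W Z j : Submodule W.K (W.H Z)),
      (⟨_, hy⟩ : (genE W f Q j ⊓ spanCycles W Z j : Submodule W.K (W.H Z))) ∈
      Submodule.span W.K (Set.range fun z : {z : Z.Cycles // IsRationalCycle ops f Q j z} =>
      (⟨(L * ((Q : W.K) ^ j) ^ (L - 1))⁻¹ • avg (gg W f) ((Q : W.K) ^ j) L (W.cl Z z.1),
        Submodule.smul_mem _ _ ⟨avg_mem_genE h1 (mem_span_cl z.2.1),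
          avg_span _ _ (mem_span_cl z.2.1)⟩⟩ :
        (genE W f Q j ⊓ spanCycles W Z j : Submodule W.K (W.H Z)))) := by
    intro y hy
    induction hy using Submodule.span_induction with
    | mem y hy =>
      intro hy'
      obtain ⟨r, hr, z, hz, rfl⟩ := hy
      obtain rfl : r = j := by exact_mod_cast hr
      obtain ⟨z', hz', hcl⟩ := exists_avg_cycle (W := W) (ops := ops) f ((Q : ℚ) ^ r) L hz
      push_cast at hcl
      have hgz : gg W f (W.cl Z z') = ((Q : W.K) ^ r) • W.cl Z z' := by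
        apply eig_of_gen hf
        · rw [hcl]; exact hy'.1
        · exact mem_span_cl hz'
      have hrat : IsRationalCycle ops f Q r z' := by
        refine ⟨hz', fun w hw => ?_⟩
        have e1 : ((Z.V.degCycle (ops.mul (ops.pull f z') w) : ℚ) : W.K) =
            (((Q : ℚ) ^ r * Z.V.degCycle (ops.mul z' w) : ℚ) : W.K) := by
          rw [← tr_mul_cl' (ops.pull_mem f hz') hw (by omega), W.cl_pull, ← gg_apply, hgz,
            smul_mul_assoc, map_smul, tr_mul_cl' hz' hw (by omega)]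
          push_cast
          rfl
        exact_mod_cast e1
      refine Submodule.subset_span ⟨⟨z', hrat⟩, ?_⟩
      apply Subtype.ext
      change (L * ((Q : W.K) ^ r) ^ (L - 1))⁻¹ •
        avg (gg W f) ((Q : W.K) ^ r) L (W.cl Z z') = _
      rw [avg_eig _ _ _ hgz, smul_smul, inv_mul_cancel₀ hq, one_smul, hcl]
    | zero =>
      intro hy'
      have e : (⟨_, hy'⟩ : (genE W f Q j ⊓ spanCycles W Z j : Submodule W.K (W.H Z))) = 0 :=
        Subtype.ext (map_zero _)
      rw [e]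
      exact Submodule.zero_mem _
    | add a b ha hb iha ihb =>
      intro hy'
      have e : (⟨_, hy'⟩ : (genE W f Q j ⊓ spanCycles W Z j : Submodule W.K (W.H Z))) =
          ⟨_, avg_mem_genE h1 ha, avg_span _ _ ha⟩ + ⟨_, avg_mem_genE h1 hb, avg_span _ _ hb⟩ :=
        Subtype.ext (map_add _ _ _)
      rw [e]
      exact Submodule.add_mem _ (iha _) (ihb _)
    | smul t a ha iha =>
      intro hy'
      have e : (⟨_, hy'⟩ : (genE W f Q j ⊓ spanCycles W Z j : Submodule W.K (W.H Z))) =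
          t • ⟨_, avg_mem_genE h1 ha, avg_span _ _ ha⟩ := Subtype.ext (map_smul _ _ _)
      rw [e]
      exact Submodule.smul_mem _ _ (iha _)
  have h3 := Submodule.smul_mem _ (L * ((Q : W.K) ^ j) ^ (L - 1))⁻¹
    (h2 v hvs ⟨avg_mem_genE h1 hvs, avg_span _ _ hvs⟩)
  have e : (L * ((Q : W.K) ^ j) ^ (L - 1))⁻¹ •
      (⟨_, avg_mem_genE h1 hvs, avg_span _ _ hvs⟩ :
        (genE W f Q j ⊓ spanCycles W Z j : Submodule W.K (W.H Z))) = ⟨v, hv, hvs⟩ := by
    apply Subtype.ext
    change (L * ((Q : W.K) ^ j) ^ (L - 1))⁻¹ • avg (gg W f) ((Q : W.K) ^ j) L v = v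
    rw [avg_eig _ _ _ hev, smul_smul, inv_mul_cancel₀ hq, one_smul]
  rw [e] at h3
  exact h3

/-- **The rank of the group of the cycles on a model modulo numerical equivalence.** -/
theorem rank_eq {f : Z ⟶ Z} {Q : ℕ} (hf : IsFr Φ f Q) {j : ℕ} (hj : j ≤ Z.dim) :
    rationalRank ops f Q j +
      Module.finrank W.K (genE W f Q j ⊓ ((algSys W).Num Z ⊓ spanCycles W Z j) :
        Submodule W.K (W.H Z)) =
      Module.finrank W.K (genE W f Q j ⊓ spanCycles W Z j : Submodule W.K (W.H Z)) := by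
  obtain ⟨L, hL, h1⟩ := eig_span hf j
  have hq := qc_ne (j := j) hf hL
  set V : Submodule W.K (W.H Z) := genE W f Q j ⊓ spanCycles W Z j with hV
  set N : Submodule W.K V := ((algSys W).Num Z).comap V.subtype with hN
  -- the values of the intersection numbers
  let B0 : {w // Z.IsCyc (Z.dim - j) w} → V →ₗ[W.K] W.K := fun w =>
    W.tr Z ∘ₗ LinearMap.mulRight W.K (W.cl Z w.1) ∘ₗ Submodule.subtype _
  have hB0 : ∀ w, N ≤ LinearMap.ker (B0 w) := by
    intro w v hv
    rw [LinearMap.mem_ker]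
    have h2 : (v : W.H Z) ∈ (algSys W).Num Z := hv
    exact h2.2 _ (span_le_algSpan (j := Z.dim - j) (mem_span_cl w.2))
  let B : {w // Z.IsCyc (Z.dim - j) w} → (V ⧸ N) →ₗ[W.K] W.K := fun w =>
    N.liftQ (B0 w) (hB0 w)
  let x0 : {z : Z.Cycles // IsRationalCycle ops f Q j z} → V := fun z =>
    ⟨(L * ((Q : W.K) ^ j) ^ (L - 1))⁻¹ • avg (gg W f) ((Q : W.K) ^ j) L (W.cl Z z.1),
      Submodule.smul_mem _ _ ⟨avg_mem_genE h1 (mem_span_cl z.2.1), avg_span _ _ (mem_span_cl z.2.1)⟩⟩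
  let x : {z : Z.Cycles // IsRationalCycle ops f Q j z} → V ⧸ N := fun z => N.mkQ (x0 z)
  have hBx : ∀ z w, B w (x z) = ((interNumbers ops Z j ⟨z.1, z.2.1⟩ w : ℚ) : W.K) := by
    intro z w
    change W.tr Z (((L * ((Q : W.K) ^ j) ^ (L - 1))⁻¹ •
      avg (gg W f) ((Q : W.K) ^ j) L (W.cl Z z.1)) * W.cl Z w.1) = _
    rw [smul_mul_assoc, map_smul, tr_avg hf (l := Z.dim - j) (by omega) z.2 L (mem_span_cl w.2),
      smul_eq_mul, ← mul_assoc, inv_mul_cancel₀ hq, one_mul]
    exact tr_mul_cl' z.2.1 w.2 (by omega)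
  have hle := rat_le (K := W.K) (V := V ⧸ N)
    (fun z : {z : Z.Cycles // IsRationalCycle ops f Q j z} => interNumbers ops Z j ⟨z.1, z.2.1⟩)
    x B hBx
  have hge := rat_ge (K := W.K) (V := V ⧸ N)
    (fun z : {z : Z.Cycles // IsRationalCycle ops f Q j z} => interNumbers ops Z j ⟨z.1, z.2.1⟩)
    x B hBx (by
      intro v hv
      obtain ⟨v, rfl⟩ := N.mkQ_surjective v
      rw [Submodule.mkQ_apply, Submodule.Quotient.mk_eq_zero]
      exact num_of_span hj v.2.2 fun w hw => hv ⟨w, hw⟩) (by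
      intro v
      obtain ⟨v, rfl⟩ := N.mkQ_surjective v
      have h2 := Submodule.mem_map_of_mem (f := N.mkQ) (avg_spans hf hj hL h1 v)
      rw [Submodule.map_span, ← Set.range_comp] at h2
      exact h2)
  have h2 : rationalRank ops f Q j = Module.finrank W.K (V ⧸ N) := le_antisymm hle hge
  have h3 : Module.finrank W.K N = Module.finrank W.K (genE W f Q j ⊓
      ((algSys W).Num Z ⊓ spanCycles W Z j) : Submodule W.K (W.H Z)) := by
    have h4 : N.map V.subtype = genE W f Q j ⊓ ((algSys W).Num Z ⊓ spanCycles W Z j) := by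
      ext y
      constructor
      · rintro ⟨v, hv, rfl⟩
        exact ⟨v.2.1, hv, v.2.2⟩
      · rintro ⟨ha, hb, hc⟩
        exact ⟨⟨y, ha, hc⟩, hb, rfl⟩
    rw [← h4]
    exact (Submodule.equivMapOfInjective _ (Submodule.subtype_injective _) _).finrank_eq
  rw [h2, ← h3]
  exact N.finrank_quotient_add_finrank

end Pool.Agent.H50.WA
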