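import Pool.Agent.H50.WA.Level
import Pool.Agent.H50.WA.Rank
import Pool.Graph.R_pool_sql_team_seeded_843ab51a.H44T.PT.Pole

/-!
# Summation over the codimensions
-/

set_option linter.unusedSectionVars false

open CategoryTheory AlgebraicGeometry Finset Polynomial

universe u v

namespace Pool.Agent.H50.WA

open Pool.Agent.H914 Pool.Agent.W534 VarClass Obj WeilCohomology Pool.Agent.H281R3.HT
  Pool.Agent.W536.RR
open Pool.Agent.H50.WR
open Pool.Agent.Y163 (pw pr tup perm HBasis mon mon_eq genU mem_genU exists_monBasis exists_hbasis)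
open Pool.Agent.Y133.Half (algSys tateSys TC Sys PH spanCycles_of_algSpan)
open Pool.Agent.R936 (monv span_le_algSpan)

variable {k : Type u} [Field k] {𝒱 : VarClass k} {ops : CycleOps 𝒱}
  {W : WeilCohomology.{u, v} ops} {X Y Z : 𝒱.Obj} {p : ℕ} {Φ : FrobSystem W p} {n : ℕ}

/-- A graded subspace in even degrees. -/
structure Gr (C : Submodule W.K (W.H Z)) : Prop where
  proj : ∀ x ∈ C, ∀ i, H914.proj (W.isInternal Z) i x ∈ C
  odd : ∀ x ∈ C, ∀ i, H914.proj (W.isInternal Z) (2 * i + 1) x = 0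

/-- The dimension of a graded subspace. -/
theorem Gr.finrank {C : Submodule W.K (W.H Z)} (hC : Gr C) :
    Module.finrank W.K C = ∑ j ∈ Finset.range (Z.dim + 1),
      Module.finrank W.K (C ⊓ W.gr Z (2 * j) : Submodule W.K (W.H Z)) := by
  rw [← Fin.sum_univ_eq_sum_range (fun j => Module.finrank W.K
    (C ⊓ W.gr Z (2 * j) : Submodule W.K (W.H Z))), ← Module.finrank_pi_fintype]
  let θ : C →ₗ[W.K] (∀ j : Fin (Z.dim + 1), (C ⊓ W.gr Z (2 * j) : Submodule W.K (W.H Z))) :=
    LinearMap.pi fun j => ((H914.proj (W.isInternal Z) (2 * j)).comp C.subtype).codRestrict _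
      fun x => ⟨hC.proj _ x.2 _, proj_mem _ _ _⟩
  have hθ : ∀ x (j : Fin (Z.dim + 1)), ((θ x j : (C ⊓ W.gr Z (2 * j) : Submodule W.K (W.H Z))) :
      W.H Z) = H914.proj (W.isInternal Z) (2 * j) x := fun _ _ => rfl
  refine (LinearEquiv.ofBijective θ ⟨?_, ?_⟩).finrank_eq
  · rw [← LinearMap.ker_eq_bot, LinearMap.ker_eq_bot']
    rintro ⟨x, hx⟩ h0
    have h1 : ∀ j, H914.proj (W.isInternal Z) (2 * j) x = 0 := by
      intro j
      by_cases hj : j < Z.dim + 1
      · have h2 := congrFun h0 ⟨j, hj⟩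
        have h3 := congrArg Subtype.val h2
        rw [hθ] at h3
        exact h3
      · have h2 := proj_mem (W.isInternal Z) (2 * j) x
        rw [W.gr_eq_bot Z _ (by omega)] at h2
        exact (Submodule.mem_bot _).1 h2
    apply Subtype.ext
    have h2 : ∀ i, H914.proj (W.isInternal Z) i x = 0 := by
      intro i
      rcases Nat.even_or_odd' i with ⟨l, rfl | rfl⟩
      · exact h1 l
      · exact hC.odd x hx l
    have h3 := congrArg (fun f => f x) (sum_proj (W.isInternal Z) (N := 2 * Z.dim + 1)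
      fun i hi => W.gr_eq_bot Z i (by omega))
    simp only [LinearMap.sum_apply, h2, Finset.sum_const_zero, Module.End.one_apply] at h3
    exact h3.symm
  · intro y
    refine ⟨⟨∑ j, (y j : W.H Z), Submodule.sum_mem _ fun j _ => (y j).2.1⟩, ?_⟩
    funext j
    apply Subtype.ext
    rw [hθ]
    change H914.proj (W.isInternal Z) (2 * j) (∑ j, (y j : W.H Z)) = _
    rw [map_sum, Finset.sum_eq_single j]
    · exact proj_same _ (y j).2.2
    · intro i _ hi
      refine proj_ne _ (y i).2.2 ?_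
      intro h
      exact hi (Fin.ext (by omega))
    · intro h
      exact absurd (Finset.mem_univ _) h

lemma gr_alg : Gr (algSpan W Z) where
  proj x hx i := by
    refine algSpan_induction (p := fun x => H914.proj (W.isInternal Z) i x ∈ algSpan W Z)
      ?_ ?_ ?_ ?_ hx
    · rw [map_zero]; exact Submodule.zero_mem _
    · intro a b ha hb; rw [map_add]; exact Submodule.add_mem _ ha hb
    · intro t a ha; rw [map_smul]; exact Submodule.smul_mem _ _ ha
    · intro j z hz
      by_cases h : 2 * j = i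
      · subst h
        rw [proj_same _ (W.cl_mem hz)]
        exact span_le_algSpan (j := j) (Pool.Agent.H447.mem_span_cl hz)
      · rw [proj_ne _ (W.cl_mem hz) h]
        exact Submodule.zero_mem _
  odd x hx i := by
    refine algSpan_induction (p := fun x => H914.proj (W.isInternal Z) (2 * i + 1) x = 0)
      ?_ ?_ ?_ ?_ hx
    · rw [map_zero]
    · intro a b ha hb; rw [map_add, ha, hb, add_zero]
    · intro t a ha; rw [map_smul, ha, smul_zero]
    · intro j z hz
      exact proj_ne _ (W.cl_mem hz) (by omega)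

lemma gr_num : Gr ((algSys W).Num Z) where
  proj x hx i := by
    refine ⟨gr_alg.proj x hx.1 i, fun d hd => ?_⟩
    refine algSpan_induction (p := fun d => W.tr Z (H914.proj (W.isInternal Z) i x * d) = 0)
      ?_ ?_ ?_ ?_ hd
    · rw [mul_zero, map_zero]
    · intro a b ha hb
      rw [mul_add, map_add, ha, hb, add_zero]
    · intro t a ha
      rw [mul_smul_comm, map_smul, ha, smul_zero]
    · intro r z hz
      by_cases hr : i + 2 * r = 2 * Z.dim
      · have h3 := congrArg (fun f => f x) (sum_proj (W.isInternal Z) (N := 2 * Z.dim + 1)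
          fun i hi => W.gr_eq_bot Z i (by omega))
        simp only [LinearMap.sum_apply, Module.End.one_apply] at h3
        have h4 : W.tr Z (x * W.cl Z z) = 0 :=
          hx.2 _ (span_le_algSpan (j := r) (Pool.Agent.H447.mem_span_cl hz))
        rw [← h3, Finset.sum_mul, map_sum, Finset.sum_eq_single_of_mem i
          (Finset.mem_range.2 (by omega))] at h4
        · exact h4
        · intro l _ hl
          exact W.tr_eq_zero (W.mul_mem (proj_mem _ _ _) (W.cl_mem hz)) (by omega)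
      · exact W.tr_eq_zero (W.mul_mem (proj_mem _ _ _) (W.cl_mem hz)) hr
  odd x hx i := gr_alg.odd x hx.1 i

lemma gr_tate : Gr ((tateSys Φ).C Z) where
  proj x hx i := by
    change x ∈ TC Φ Z at hx
    change H914.proj (W.isInternal Z) i x ∈ TC Φ Z
    rcases Nat.even_or_odd' i with ⟨l, rfl | rfl⟩
    · exact Pool.Agent.H44T.PT.genU_le_TC Φ Z l (Pool.Agent.H44T.PT.proj_TC Φ hx l)
    · have h1 : H914.proj (W.isInternal Z) (2 * l + 1) x = 0 := by
        refine TC.ind (q := fun x => H914.proj (W.isInternal Z) (2 * l + 1) x = 0) ?_ ?_ ?_ hx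
        · intro s j _ y hy
          exact proj_ne _ hy.2 (by omega)
        · rw [map_zero]
        · intro a b ha hb
          rw [map_add, ha, hb, add_zero]
      rw [h1]
      exact Submodule.zero_mem _
  odd x hx l := by
    change x ∈ TC Φ Z at hx
    refine TC.ind (q := fun x => H914.proj (W.isInternal Z) (2 * l + 1) x = 0) ?_ ?_ ?_ hx
    · intro s j _ y hy
      exact proj_ne _ hy.2 (by omega)
    · rw [map_zero]
    · intro a b ha hb
      rw [map_add, ha, hb, add_zero]

/-- The twisting operators preserve the degrees. -/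
lemma Th_gr {ξ : W.H X} (hξ : ξ ∈ W.gr X 2) (h0 : W.tr X (ξ ^ X.dim) ≠ 0)
    (θ : (Fin (n + 1) → Bool) → W.K) {i : ℕ} {x : W.H (pw X n)} (hx : x ∈ W.gr (pw X n) i) :
    Th ξ n θ x ∈ W.gr (pw X n) i := by
  classical
  obtain ⟨ι, _, ⟨B⟩⟩ := exists_hbasis W X
  have hft : Fintype ι := Fintype.ofFinite ι
  obtain ⟨bs, hbs⟩ := exists_monBasis B n
  rw [← bs.sum_repr x, map_sum]
  refine Submodule.sum_mem _ fun I _ => ?_
  by_cases hc : bs.repr x I = 0
  · rw [hc, zero_smul, map_zero]; exact Submodule.zero_mem _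
  have hdeg : ∑ j, B.deg (I j) = i := by
    by_contra hne
    apply hc
    refine Pool.Agent.R940.repr_zero (W.isInternal (pw X n)).submodule_iSupIndep bs
      (fun I => ∑ j, B.deg (I j)) (fun I => ?_) hx hne
    rw [hbs, mon_monv]
    exact monv_gr fun j => B.mem _
  rw [map_smul, hbs, mon_monv, Th_monv hξ h0 θ fun i => B.mem (I i)]
  refine Submodule.smul_mem _ _ (Submodule.smul_mem _ _ ?_)
  rw [← hdeg]
  exact monv_gr fun j => B.mem _

/-- A graded subspace of the generalised Tate classes which is stable under correspondences. -/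
structure Good (Φ : FrobSystem W p) (C : Submodule W.K (W.H Z)) : Prop where
  gr : Gr C
  op : ∀ u ∈ (algSys W).Op Z Z, ∀ x ∈ C, u x ∈ C
  le : C ≤ (tateSys Φ).C Z

lemma good_tate : Good Φ ((tateSys Φ).C Z) :=
  ⟨gr_tate, fun _ hu _ hx => Sys.Op.apply (Pool.Agent.Y133.Half.alg_le_tate Φ) hu hx, le_rfl⟩

lemma good_alg : Good Φ (algSpan W Z) :=
  ⟨gr_alg, fun _ hu _ hx => Sys.Op.apply (S := algSys W) (T := algSys W) (fun _ => le_rfl) hu hx,
    Pool.Agent.Y133.Half.alg_le_tate Φ Z⟩

lemma good_num : Good Φ ((algSys W).Num Z) := by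
  refine ⟨gr_num, fun u hu x hx => ⟨good_alg (Φ := Φ) |>.op u hu x hx.1, fun d hd => ?_⟩,
    fun x hx => Pool.Agent.Y133.Half.alg_le_tate Φ Z hx.1⟩
  obtain ⟨u', hu', hadj⟩ := Sys.Op.exists_adj hu
  rw [hadj]
  exact hx.2 _ (good_alg (Φ := Φ) |>.op u' hu' d hd)

/-- **Equidistribution among the Frobenius eigenvalues.** -/
theorem count (Φ : FrobSystem W p) (X : 𝒱.Obj) [IsAlgClosed W.K] (hp : 1 < p) {ξ : W.H X}
    (hξ : ξ ∈ W.gr X 2) (hξa : ξ ∈ algSpan W X) (h0 : W.tr X (ξ ^ X.dim) ≠ 0) (hd : 0 < X.dim) :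
    ∃ τ : ℕ, 0 < τ ∧ ∀ n s : ℕ, 0 < s → τ ∣ s * (n + 1) →
      ∀ C : Submodule W.K (W.H (pw X n)), Good Φ C →
        (n + 1) * (∑ j ∈ Finset.range ((pw X n).dim + 1), dg (gg W (weilFrob Φ X n s))
          (C ⊓ W.gr (pw X n) (2 * j)) ((Pool.Agent.W534.card Φ X s : W.K) ^ j)) ≤
            Module.finrank W.K C + ((pw X n).dim + 1) * ((n + 1) *
              eb (Module.finrank W.K (W.H X)) n) ∧
        Module.finrank W.K C ≤
          (n + 1) * (∑ j ∈ Finset.range ((pw X n).dim + 1), dg (gg W (weilFrob Φ X n s))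
          (C ⊓ W.gr (pw X n) (2 * j)) ((Pool.Agent.W534.card Φ X s : W.K) ^ j)) +
            ((pw X n).dim + 1) * ((n + 1) * eb (Module.finrank W.K (W.H X)) n) := by
  classical
  obtain ⟨τ, hτ, hlev⟩ := level Φ X (by omega)
  refine ⟨τ, hτ, fun n s hs hdvd C hC => ?_⟩
  obtain ⟨P, hP, hPer⟩ := exists_per hξ h0 hd n
  have hne : NeZero ((n + 1 : ℕ) : W.K) := ⟨Nat.cast_ne_zero.2 (Nat.succ_ne_zero n)⟩
  obtain ⟨ω, hω⟩ := HasEnoughRootsOfUnity.exists_primitiveRoot W.K (n + 1)
  set Q : W.K := (Pool.Agent.W534.card Φ X s : W.K) with hQ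
  have hQ0 : Q ≠ 0 := card_ne Φ s
  set f := gg W (weilFrob Φ X n s) with hf
  have key : ∀ j, (n + 1) * dg f (C ⊓ W.gr (pw X n) (2 * j)) (Q ^ j) ≤
        Module.finrank W.K (C ⊓ W.gr (pw X n) (2 * j) : Submodule W.K (W.H (pw X n))) +
          (n + 1) * Module.finrank W.K P ∧
      Module.finrank W.K (C ⊓ W.gr (pw X n) (2 * j) : Submodule W.K (W.H (pw X n))) ≤
        (n + 1) * dg f (C ⊓ W.gr (pw X n) (2 * j)) (Q ^ j) + (n + 1) * Module.finrank W.K P := by
    intro j
    refine equi (U := C ⊓ W.gr (pw X n) (2 * j)) (P := P) (f := f) (m := n + 1) (μ := Q ^ j)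
      (fun x hx => ⟨hC.op _ (Sys.Op.map _) x hx.1, W.map_mem _ hx.2⟩) hω (Nat.succ_pos n)
      (pow_ne_zero _ hQ0) ?_ ?_
    · intro x hx
      apply hlev n s j hdvd
      have h1 := Pool.Agent.H44T.PT.proj_TC Φ (show x ∈ TC Φ (pw X n) from hC.le hx.1) j
      rwa [proj_same _ hx.2] at h1
    · intro ζ hζ
      obtain ⟨θ, hθ1, hθ2⟩ := exists_theta (n := n) hζ
      exact ⟨Th ξ n θ, Th_comm hξ h0 hθ1 s,
        fun x hx => ⟨hC.op _ (Th_mem hξa θ) x hx.1, Th_gr hξ h0 θ hx.2⟩, hPer θ hθ2⟩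
  rw [hC.gr.finrank]
  constructor
  · rw [Finset.mul_sum]
    refine (Finset.sum_le_sum fun j _ => (key j).1).trans ?_
    rw [Finset.sum_add_distrib, Finset.sum_const, Finset.card_range, smul_eq_mul]
    exact Nat.add_le_add_left (Nat.mul_le_mul_left _ (Nat.mul_le_mul_left _ hP)) _
  · rw [Finset.mul_sum]
    refine (Finset.sum_le_sum fun j _ => (key j).2).trans ?_
    rw [Finset.sum_add_distrib, Finset.sum_const, Finset.card_range, smul_eq_mul]
    exact Nat.add_le_add_left (Nat.mul_le_mul_left _ (Nat.mul_le_mul_left _ hP)) _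

end Pool.Agent.H50.WA
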