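import Pool.Agent.H50.WR.D
import Pool.Agent.H50.WA.Lin
import Pool.Agent.H50.WA.Pat

/-!
# Algebraic operators which are twisted by the Frobenius endomorphism of the Weil restriction
-/

set_option linter.unusedSectionVars false

open CategoryTheory AlgebraicGeometry Finset Polynomial

universe u v

namespace Pool.Agent.H50.WA

open Pool.Agent.H914 Pool.Agent.W534 VarClass Obj WeilCohomology Pool.Agent.H281R3.HT
open Pool.Agent.H50.WR
open Pool.Agent.Y163 (pw pr tup perm HBasis mon mon_eq tup_pr perm_pr perm_mul pw_hom_ext ofFn_perm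
  prod_perm genU mem_genU exists_monBasis exists_hbasis)
open Pool.Agent.Y133.Half (algSys Sys PH xp corr_xp spanCycles_of_algSpan)
open Pool.Agent.Y133.Half.Sys (Op mem_Op)
open Pool.Agent.R940 (IsEig frob_pr gen_semi gen_bilin ofFn_gr repr_zero)
open Pool.Agent.R936 (monv monv_eq monv_zero tens tens_monv tens_mem op_apply lw TL AllWords
  span_le_algSpan lw_cons lw_nil lw_append lw_perm IsUnitIdx)

variable {k : Type u} [Field k] {𝒱 : VarClass k} {ops : CycleOps 𝒱}
  {W : WeilCohomology.{u, v} ops} {X Y Z : 𝒱.Obj} {p : ℕ} {Φ : FrobSystem W p}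
  {ι : Type v} {B : HBasis W X ι} {n : ℕ}

/-- The projector onto the cohomology of degree zero, or its complement. -/
noncomputable def sel (ξ : W.H X) (b : Bool) : Module.End W.K (W.H X) :=
  if b then evOp ξ 0 else 1 - evOp ξ 0

lemma sel_gr {ξ : W.H X} (hξ : ξ ∈ W.gr X 2) (h0 : W.tr X (ξ ^ X.dim) ≠ 0) {i : ℕ} {z : W.H X}
    (hz : z ∈ W.gr X i) (b : Bool) : sel ξ b z = if decide (i = 0) = b then z else 0 := by
  have h1 : evOp ξ 0 z = if i = 0 then z else 0 := by
    by_cases hi : i = 0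
    · subst hi
      rw [if_pos rfl]
      have h2 := hz
      rw [W.gr_zero] at h2
      obtain ⟨c, rfl⟩ := Submodule.mem_span_singleton.1 h2
      have h3 := evOp_pow hξ h0 (Nat.zero_le X.dim)
      rw [pow_zero] at h3
      rw [map_smul, h3]
    · rw [if_neg hi]
      exact evOp_pos hξ (Nat.pos_of_ne_zero hi) hz
  cases b
  · rw [sel, if_neg (by simp), LinearMap.sub_apply, Module.End.one_apply, h1]
    by_cases hi : i = 0 <;> simp [hi]
  · rw [sel, if_pos rfl, h1]
    by_cases hi : i = 0 <;> simp [hi]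

lemma sel_mem {ξ : W.H X} (hξ : ξ ∈ algSpan W X) (b : Bool) : sel ξ b ∈ (algSys W).Op X X := by
  cases b
  · rw [sel, if_neg (by simp)]
    exact Submodule.sub_mem _ Op.id (evOp_mem hξ 0)
  · rw [sel, if_pos rfl]
    exact evOp_mem hξ 0

/-- The operators which multiply the words with a given pattern with a number. -/
noncomputable def Th (ξ : W.H X) (n : ℕ) (θ : (Fin (n + 1) → Bool) → W.K) :
    Module.End W.K (W.H (pw X n)) :=
  ∑ A : Fin (n + 1) → Bool, θ A • tens X n fun i => sel ξ (A i)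

lemma Th_mem {ξ : W.H X} (hξ : ξ ∈ algSpan W X) (θ : (Fin (n + 1) → Bool) → W.K) :
    Th ξ n θ ∈ (algSys W).Op (pw X n) (pw X n) :=
  Submodule.sum_mem _ fun A _ => Submodule.smul_mem _ _ (tens_mem n fun i => sel_mem hξ (A i))

lemma Th_monv {ξ : W.H X} (hξ : ξ ∈ W.gr X 2) (h0 : W.tr X (ξ ^ X.dim) ≠ 0)
    (θ : (Fin (n + 1) → Bool) → W.K) {v : Fin (n + 1) → W.H X} {d : Fin (n + 1) → ℕ}
    (hv : ∀ i, v i ∈ W.gr X (d i)) :
    Th ξ n θ (monv X n v) = θ (fun i => decide (d i = 0)) • monv X n v := by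
  classical
  rw [Th, LinearMap.sum_apply, Finset.sum_eq_single (fun i => decide (d i = 0))]
  · rw [LinearMap.smul_apply, tens_monv]
    congr 2
    funext i
    rw [sel_gr hξ h0 (hv i), if_pos rfl]
  · intro A _ hA
    obtain ⟨i, hi⟩ := Function.ne_iff.1 hA
    rw [LinearMap.smul_apply, tens_monv, monv_zero (i := i), smul_zero]
    rw [sel_gr hξ h0 (hv i), if_neg (fun h => hi h.symm)]
  · intro h
    exact absurd (Finset.mem_univ _) h

lemma mon_monv (B : HBasis W X ι) (n : ℕ) (I : Fin (n + 1) → ι) :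
    mon B n I = monv X n fun i => B.b (I i) := by
  rw [mon_eq, monv_eq]

lemma d_monv (s : ℕ) (v : Fin (n + 1) → W.H X) :
    gg W (dFrob Φ X n s) (monv X n v) = monv X n fun i => frob Φ X s (v i) := by
  rw [monv_eq, monv_eq, gg_apply, map_list_prod, List.map_ofFn]
  congr 2
  funext i
  exact map_d_pr n s i _

lemma frob_gr {s i : ℕ} {x : W.H X} (hx : x ∈ W.gr X i) : frob Φ X s x ∈ W.gr X i := by
  rw [frob_apply]
  exact W.map_mem _ hx

/-- **The twisted commutation.** -/
theorem Th_comm {ξ : W.H X} (hξ : ξ ∈ W.gr X 2) (h0 : W.tr X (ξ ^ X.dim) ≠ 0) {ζ : W.K}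
    {θ : (Fin (n + 1) → Bool) → W.K} (hθ : ∀ A, θ (rotA 1 A) = ζ * θ A) (s : ℕ)
    (x : W.H (pw X n)) :
    Th ξ n θ (gg W (weilFrob Φ X n s) x) = ζ • gg W (weilFrob Φ X n s) (Th ξ n θ x) := by
  obtain ⟨ι, _, ⟨B⟩⟩ := exists_hbasis W X
  obtain ⟨bs, hbs⟩ := exists_monBasis B n
  have h1 : Th ξ n θ ∘ₗ gg W (weilFrob Φ X n s) = ζ • (gg W (weilFrob Φ X n s) ∘ₗ Th ξ n θ) := by
    apply bs.ext
    intro I
    rw [hbs, mon_monv, LinearMap.comp_apply, LinearMap.smul_apply, LinearMap.comp_apply,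
      Th_monv hξ h0 θ fun i => B.mem (I i), map_smul]
    have hF : gg W (weilFrob Φ X n s) (monv X n fun i => B.b (I i)) =
        W.map (sh X n 1) (monv X n fun i => frob Φ X s (B.b (I i))) := by
      rw [← d_monv, gg_apply, weil_eq, W.map_comp]
      rfl
    have hg : ∀ i, frob Φ X s (B.b (I i)) ∈ W.gr X (B.deg (I i)) := fun i => frob_gr (B.mem _)
    obtain ⟨ε, hε⟩ := sh_monv hg 1
    rw [hF, hε, map_smul, Th_monv hξ h0 θ (d := fun i => B.deg (I (i - 1))) fun i => hg (i - 1)]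
    have h2 : (fun i => decide (B.deg (I (i - 1)) = 0)) =
        rotA 1 fun i => decide (B.deg (I i) = 0) := rfl
    rw [h2, hθ, smul_smul, smul_smul, smul_smul]
    congr 1
    ring
  exact congrArg (fun F => F x) h1

/-- The letters of degree zero. -/
lemma exists_zero_letter [Finite ι] (B : HBasis W X ι) (h1 : (1 : W.H X) ≠ 0) :
    ∃ i0, ∀ l, B.deg l = 0 ↔ l = i0 := by
  classical
  have hex : ∃ i0, B.b.repr 1 i0 ≠ 0 := by
    by_contra hcon
    push Not at hcon
    apply h1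
    apply B.b.repr.injective
    ext i
    rw [hcon, map_zero]
    rfl
  obtain ⟨i0, hi0⟩ := hex
  have hdeg : B.deg i0 = 0 := by
    by_contra hne
    exact hi0 (repr_zero (W.isInternal X).submodule_iSupIndep B.b B.deg B.mem (W.one_mem X) hne)
  have hspan : ∀ l, B.deg l = 0 → ∃ c : W.K, c • (1 : W.H X) = B.b l := by
    intro l hl
    have h2 := B.mem l
    rw [hl, W.gr_zero] at h2
    exact Submodule.mem_span_singleton.1 h2
  obtain ⟨c0, hc0⟩ := hspan i0 hdeg
  have hc : c0 ≠ 0 := by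
    rintro rfl
    rw [zero_smul] at hc0
    exact B.b.ne_zero i0 hc0.symm
  refine ⟨i0, fun l => ⟨fun hl => ?_, fun h => by rw [h, hdeg]⟩⟩
  obtain ⟨c, hc'⟩ := hspan l hl
  by_contra hne
  have h2 : B.b l = (c * c0⁻¹) • B.b i0 := by
    rw [← hc', ← hc0, smul_smul, mul_assoc, inv_mul_cancel₀ hc, mul_one]
  have h3 : B.b.repr (B.b l) l = B.b.repr ((c * c0⁻¹) • B.b i0) l := by rw [← h2]
  rw [map_smul, B.b.repr_self, B.b.repr_self, Finsupp.single_eq_same, Finsupp.smul_apply,
    Finsupp.single_eq_of_ne hne, smul_zero] at h3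
  exact one_ne_zero h3

/-- A bound for the number of words with periodic pattern. -/
def eb (b n : ℕ) : ℕ := (n + 1) * (b ^ ((n + 1) / 2) * (b - 1) ^ (n + 1 - (n + 1) / 2))

/-- **The periodic part.** -/
theorem exists_per {ξ : W.H X} (hξ : ξ ∈ W.gr X 2) (h0 : W.tr X (ξ ^ X.dim) ≠ 0)
    (hd : 0 < X.dim) (n : ℕ) : ∃ P : Submodule W.K (W.H (pw X n)),
      Module.finrank W.K P ≤ eb (Module.finrank W.K (W.H X)) n ∧
      ∀ θ : (Fin (n + 1) → Bool) → W.K, (∀ A, θ A = 0 → Per A) →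
        ∀ x, Th ξ n θ x = 0 → x ∈ P := by
  classical
  obtain ⟨ι, _, ⟨B⟩⟩ := exists_hbasis W X
  have hft : Fintype ι := Fintype.ofFinite ι
  obtain ⟨bs, hbs⟩ := exists_monBasis B n
  have h1 : (1 : W.H X) ≠ 0 := by
    intro h
    apply h0
    rw [← mul_one (ξ ^ X.dim), h, mul_zero, map_zero]
  obtain ⟨i0, hi0⟩ := exists_zero_letter B h1
  have hj : ∃ j0, j0 ≠ i0 := by
    by_contra hcon
    push Not at hcon
    have h2 : ξ ^ X.dim ∈ W.gr X 0 := by
      rw [← B.b.sum_repr (ξ ^ X.dim)]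
      refine Submodule.sum_mem _ fun l _ => Submodule.smul_mem _ _ ?_
      have h3 := B.mem l
      rwa [(hi0 l).2 (hcon l)] at h3
    exact h0 (W.tr_eq_zero h2 (by omega))
  obtain ⟨j0, hj0⟩ := hj
  have hpat : ∀ I : Fin (n + 1) → ι, (fun i => decide (B.deg (I i) = 0)) = pat i0 I := by
    intro I
    funext i
    exact decide_eq_decide.2 (hi0 _)
  let T : Finset (Fin (n + 1) → ι) := Finset.univ.filter fun I => Per (pat i0 I)
  refine ⟨Submodule.span W.K ((T.image bs : Finset _) : Set (W.H (pw X n))), ?_, ?_⟩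
  · refine (finrank_span_finset_le_card _).trans (Finset.card_image_le.trans ?_)
    have h2 := card_per hj0 T fun I hI => (Finset.mem_filter.1 hI).2
    rwa [← Module.finrank_eq_card_basis B.b] at h2
  · intro θ hθ x hx
    rw [← bs.sum_repr x]
    refine Submodule.sum_mem _ fun I _ => ?_
    by_cases hc : bs.repr x I = 0
    · rw [hc, zero_smul]; exact Submodule.zero_mem _
    refine Submodule.smul_mem _ _ (Submodule.subset_span ?_)
    rw [Finset.mem_coe]
    refine Finset.mem_image_of_mem _ (Finset.mem_filter.2 ⟨Finset.mem_univ _, hθ _ ?_⟩)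
    have h2 : Th ξ n θ x = ∑ J, (bs.repr x J * θ (pat i0 J)) • bs J := by
      conv_lhs => rw [← bs.sum_repr x]
      rw [map_sum]
      refine Finset.sum_congr rfl fun J _ => ?_
      rw [map_smul, hbs, mon_monv, Th_monv hξ h0 θ fun i => B.mem (J i), hpat, smul_smul]
    rw [hx] at h2
    have h3 := Fintype.linearIndependent_iff.1 bs.linearIndependent _ h2.symm I
    exact (mul_eq_zero.1 h3).resolve_left hc

end Pool.Agent.H50.WA
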